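import Pool.Agent.Helper78.LD8.Defs
import Pool.Agent.Helper78.LD6.BG
import Pool.Agent.Helper78.LD6.TOR

set_option autoImplicit false

/-! # Project LD8, block CORE8: independence of grid functions at distinct fast times -/

namespace Pool.Agent.Helper78.LD8c

open Set MeasureTheory Filter Topology
open Pool.Agent.Helper78.LD8
open Pool.Agent.Helper41.LD6 (Gr)
open Pool.Agent.Helper78.LD6 (box_grid int_exp_le)
open Pool.Agent.Helper59.RE (e)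

/-! ## Numbers -/

theorem n_Z (F : Pm) : 1000 ≤ F.Z ∧ F.d + 4 ≤ F.Z ∧ F.t ≤ F.Z := by
  unfold Pm.Z Pm.t
  have h1 : 1 * (F.d + 4) ≤ (F.X + 1) * (F.d + 4) := Nat.mul_le_mul_right _ (by omega)
  have h2 : 1000 * (F.X + 1) * (F.d + 4) = 1000 * ((F.X + 1) * (F.d + 4)) := by ring
  rw [h2]
  omega

theorem n_ZK {F : Pm} {K : ℕ} (hK : F.Big K) : F.Z ≤ K := by
  have h1 := (n_Z F).1
  exact (Nat.le_self_pow (by norm_num) _).trans hK

theorem n_e (F : Pm) (K : ℕ) : 4 * K ≤ F.e K ∧ K * F.t ≤ 2 * F.e K := by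
  unfold Pm.e Pm.t
  constructor
  · exact Nat.mul_le_mul_right _ (by omega)
  · calc K * (2 * (F.d + 1)) = 2 * ((F.d + 1) * K) := by ring
      _ ≤ 2 * ((F.d + 4) * K) := Nat.mul_le_mul_left _ (Nat.mul_le_mul_right _ (by omega))

theorem n_E {F : Pm} {K : ℕ} (hF : F.Ok) (hK : F.Big K) : 1000 * F.Z * F.e K ≤ F.E K := by
  obtain ⟨h1, h2, -⟩ := n_Z F
  have h3 : F.Z ^ 4 ≤ K := hK
  have h0 : 1 ≤ K := by have := n_ZK hK; omega
  unfold Pm.e Pm.E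
  calc 1000 * F.Z * ((F.d + 4) * K) ≤ F.Z * F.Z * (F.Z * K) :=
        Nat.mul_le_mul (Nat.mul_le_mul_right _ h1) (Nat.mul_le_mul_right _ h2)
    _ = F.Z ^ 3 * K := by ring
    _ ≤ F.Z ^ 4 * K := Nat.mul_le_mul_right _ (Nat.pow_le_pow_right (by omega) (by norm_num))
    _ ≤ K * K := Nat.mul_le_mul_right _ h3
    _ = K ^ 2 := by ring
    _ ≤ K ^ F.a := Nat.pow_le_pow_right h0 hF.ha

theorem half_mul (n m : ℕ) : (2 : ℝ) ^ n * (1 / 2) ^ (n + m) = (1 / 2) ^ m := by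
  rw [pow_add, ← mul_assoc, ← mul_pow]
  norm_num

/-- the integral of the exponential of a linear function -/
theorem lin_int {w : ℝ} (hw : w ≠ 0) (c p q : ℝ) : ‖∫ x in p..q, e (w * x + c)‖ ≤ 1 / |w| := by
  have h := int_exp_le hw c p q
  refine le_trans (le_of_eq ?_) h
  congr 2
  ext x
  unfold Pool.Agent.Helper59.RE.e
  congr 1
  push_cast
  ring

/-- CORE8 -/
theorem core {F : Pm} {K : ℕ} {ℓ : ℝ} (hF : F.Ok) (hK : F.Big K) (hN : F.NR K) (hℓ : 0 < ℓ) {p q ϑ : ℝ} (hpq : p ≤ q) (I : Finset ℕ) (hI : I.card ≤ F.t) (hϑ : 0 < ϑ)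
    (hV : ∀ τ ∈ I, ϑ ≤ F.θ ^ τ * ℓ) (f : ℕ → ℝ → ℝ) (hf : ∀ τ ∈ I, Gr (2 ^ K) (f τ)) :
    |(∫ x in p..q, ∏ τ ∈ I, f τ (Uf F.θ F.c τ x)) - (q - p) * ∏ τ ∈ I, ∫ t in (0 : ℝ)..1, f τ t| ≤
      (1 / 2) ^ (11 * F.e K) * (q - p) + 2 ^ (2 * F.E K) * ℓ / ϑ := by
  classical
  have hE1 := n_E hF hK
  obtain ⟨hZ1, hZ3, hZ4⟩ := n_Z F
  have hKZ := n_ZK hK
  obtain ⟨he1, he3⟩ := n_e F K
  set E := F.E K with hE
  set ε := F.e K with hε
  have hε8 : 1000 ≤ ε := by omega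
  have ht8 : 8 * F.t ≤ 2 ^ ε := by
    have h3 : ∀ n : ℕ, 8 ≤ n → 8 * n ≤ 2 ^ n := by
      intro n hn
      induction n, hn using Nat.le_induction with
      | base => norm_num
      | succ n hn ih =>
        rw [pow_succ]
        omega
    have h4 := h3 ε (by omega)
    have h5 : F.t ≤ ε := by omega
    omega
  have ht : 8 * (F.t : ℝ) ≤ 2 ^ ε := by exact_mod_cast ht8
  have htI : (I.card : ℝ) ≤ F.t := by exact_mod_cast hI
  -- the exponential integrals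
  have hexp : ∀ m : ℕ → ℤ, (∀ k ∈ I, |m k| ≤ ((2 ^ (31 * ε) : ℕ) : ℤ)) → (∃ k ∈ I, m k ≠ 0) →
      ‖∫ x in p..q, e (∑ k ∈ I, m k * Uf F.θ F.c k x)‖ ≤ 2 ^ E * ℓ / ϑ := by
    intro m hm hm0
    have h1 := hN I hI m (fun τ hτ => by exact_mod_cast hm τ hτ) hm0 (ϑ / ℓ) (by positivity)
      (fun τ hτ => by rw [div_le_iff₀ hℓ]; exact hV τ hτ)
    set w : ℝ := ∑ τ ∈ I, (m τ : ℝ) * F.θ ^ τ with hw
    have hpos : 0 < (1 / 2 : ℝ) ^ E * (ϑ / ℓ) := by positivity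
    have hw0 : w ≠ 0 := by
      intro h0
      rw [h0, abs_zero] at h1
      linarith
    have h2 := lin_int hw0 (∑ τ ∈ I, (m τ : ℝ) * F.c τ) p q
    have h3 : ∀ x, ∑ k ∈ I, (m k : ℝ) * Uf F.θ F.c k x = w * x + ∑ τ ∈ I, (m τ : ℝ) * F.c τ := by
      intro x
      rw [hw, Finset.sum_mul, ← Finset.sum_add_distrib]
      apply Finset.sum_congr rfl
      intro τ _
      unfold Uf
      ring
    simp_rw [h3]
    refine h2.trans ?_
    have h4 : 1 / |w| ≤ 1 / ((1 / 2 : ℝ) ^ E * (ϑ / ℓ)) := one_div_le_one_div_of_le hpos h1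
    refine h4.trans (le_of_eq ?_)
    rw [one_div_pow]
    field_simp
  -- the boxes
  have hmeasU : ∀ k ∈ I, Measurable (Uf F.θ F.c k) := by
    intro k _
    unfold Uf
    fun_prop
  have hN' : (4 : ℝ) / ((1 / 2) ^ (14 * ε) * ((2 ^ (31 * ε) : ℕ) : ℝ)) ≤ (1 / 2) ^ (14 * ε) := by
    rw [div_le_iff₀ (by positivity)]
    push_cast
    have h1 : (1 / 2 : ℝ) ^ (14 * ε) * ((1 / 2) ^ (14 * ε) * 2 ^ (31 * ε)) = 2 ^ (3 * ε) := by
      have h2 : (2 : ℝ) ^ (31 * ε) = 2 ^ (14 * ε) * 2 ^ (14 * ε) * 2 ^ (3 * ε) := by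
        rw [← pow_add, ← pow_add]
        congr 1
        ring
      have h3 : (1 / 2 : ℝ) ^ (14 * ε) * 2 ^ (14 * ε) = 1 := by
        rw [← mul_pow]
        norm_num
      rw [h2]
      calc (1 / 2 : ℝ) ^ (14 * ε) * ((1 / 2) ^ (14 * ε) * (2 ^ (14 * ε) * 2 ^ (14 * ε) * 2 ^ (3 * ε))) =
            ((1 / 2 : ℝ) ^ (14 * ε) * 2 ^ (14 * ε)) * ((1 / 2 : ℝ) ^ (14 * ε) * 2 ^ (14 * ε)) * 2 ^ (3 * ε) := by ring
        _ = _ := by rw [h3]; ring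
    rw [h1]
    calc (4 : ℝ) = 2 ^ 2 := by norm_num
      _ ≤ 2 ^ (3 * ε) := pow_le_pow_right₀ (by norm_num) (by omega)
  have hδ8 : ((1 / 2 : ℝ)) ^ (14 * ε) ≤ 1 / 8 := by
    calc ((1 / 2 : ℝ)) ^ (14 * ε) ≤ (1 / 2) ^ 3 := pow_le_pow_of_le_one (by norm_num) (by norm_num) (by omega)
      _ = 1 / 8 := by norm_num
  have hδI : (I.card : ℝ) * (1 / 2) ^ (14 * ε) ≤ 1 / 4 := by
    calc (I.card : ℝ) * (1 / 2) ^ (14 * ε) ≤ 2 ^ ε * (1 / 2) ^ (ε + 13 * ε) := by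
          have e1 : 14 * ε = ε + 13 * ε := by ring
          rw [e1]
          gcongr
          linarith
      _ = (1 / 2) ^ (13 * ε) := half_mul _ _
      _ ≤ (1 / 2) ^ 2 := pow_le_pow_of_le_one (by norm_num) (by norm_num) (by omega)
      _ = 1 / 4 := by norm_num
  have hmain := box_grid I (fun k => Uf F.θ F.c k) (p := p) (q := q) (δ := (1 / 2) ^ (14 * ε)) (ε := 2 ^ E * ℓ / ϑ) hpq hmeasU
    (by positivity) hδ8 hδI (N := 2 ^ (31 * ε)) hN' Nat.one_le_two_pow (by positivity) hexp (N₀ := 2 ^ K) Nat.one_le_two_pow f hf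
  refine hmain.trans ?_
  have hNI : (((2 ^ K : ℕ) : ℝ)) ^ I.card ≤ 2 ^ (2 * ε) := by
    push_cast
    rw [← pow_mul]
    refine pow_le_pow_right₀ (by norm_num) ((Nat.mul_le_mul_left K hI).trans he3)
  have h2N : (2 * (((2 ^ (31 * ε) : ℕ)) : ℝ) + 1) ^ I.card ≤ 2 ^ (33 * ε * F.t) := by
    have h1 : 2 * (((2 ^ (31 * ε) : ℕ)) : ℝ) + 1 ≤ 2 ^ (33 * ε) := by
      push_cast
      have h3 : (1 : ℝ) ≤ 2 ^ (31 * ε) := one_le_pow₀ (by norm_num)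
      calc 2 * (2 : ℝ) ^ (31 * ε) + 1 ≤ 4 * 2 ^ (31 * ε) := by linarith
        _ = 2 ^ (31 * ε + 2) := by rw [pow_add]; ring
        _ ≤ _ := pow_le_pow_right₀ (by norm_num) (by omega)
    calc _ ≤ ((2 : ℝ) ^ (33 * ε)) ^ I.card := pow_le_pow_left₀ (by positivity) h1 _
      _ ≤ ((2 : ℝ) ^ (33 * ε)) ^ F.t := pow_le_pow_right₀ (one_le_pow₀ (by norm_num)) hI
      _ = _ := by rw [← pow_mul]
  rw [mul_add]
  refine add_le_add ?_ ?_
  · have h0 : 0 ≤ q - p := by linarith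
    calc (((2 ^ K : ℕ) : ℝ)) ^ I.card * (8 * (I.card : ℝ) * (1 / 2) ^ (14 * ε) * (q - p))
        ≤ 2 ^ (2 * ε) * (2 ^ ε * (1 / 2) ^ (14 * ε) * (q - p)) := by
          gcongr
          linarith
      _ = 2 ^ (3 * ε) * (1 / 2) ^ (3 * ε + 11 * ε) * (q - p) := by
          have e1 : 14 * ε = 3 * ε + 11 * ε := by ring
          have e2 : (2 : ℝ) ^ (3 * ε) = 2 ^ (2 * ε) * 2 ^ ε := by
            rw [← pow_add]
            congr 1
            ring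
          rw [e1, e2]
          ring
      _ = _ := by rw [half_mul]
  · have hexpo : 2 * ε + 33 * ε * F.t + E ≤ 2 * E := by
      have h1 : 33 * ε * F.t ≤ 33 * ε * F.Z := Nat.mul_le_mul_left _ hZ4
      have h2 : 2 * ε ≤ 2 * ε * F.Z := Nat.le_mul_of_pos_right _ (by omega)
      have h3 : 1000 * F.Z * ε = 2 * ε * F.Z + 33 * ε * F.Z + 965 * (ε * F.Z) := by ring
      omega
    calc (((2 ^ K : ℕ) : ℝ)) ^ I.card * ((2 * (((2 ^ (31 * ε) : ℕ)) : ℝ) + 1) ^ I.card * (2 ^ E * ℓ / ϑ))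
        ≤ 2 ^ (2 * ε) * (2 ^ (33 * ε * F.t) * (2 ^ E * ℓ / ϑ)) := by gcongr
      _ = 2 ^ (2 * ε + 33 * ε * F.t + E) * ℓ / ϑ := by
          rw [pow_add, pow_add]
          ring
      _ ≤ 2 ^ (2 * E) * ℓ / ϑ := by
          gcongr
          norm_num

end Pool.Agent.Helper78.LD8c
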