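import Pool.Agent.Helper41.LD4.Main

/-!
# Project LD8: the sum over the phases, with exponents that grow with the phase
-/

set_option autoImplicit false

namespace Pool.Agent.Helper78.LD9

open Set MeasureTheory Filter Topology
open Pool.Agent.Helper41.LD4 (kp kp_zero kp_strict exists_phase)

theorem kp_val (σ : ℕ) : kp σ + 1 = 2 ^ σ := by
  unfold kp
  have : 1 ≤ 2 ^ σ := Nat.one_le_two_pow
  omega

/-- counting over adjacent ranges -/
theorem count_add (P : ℕ → Prop) [DecidablePred P] {a b c : ℕ} (h1 : a ≤ b) (h2 : b ≤ c) :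
    (((Finset.Ico a c).filter P).card : ℝ) = ((Finset.Ico a b).filter P).card + ((Finset.Ico b c).filter P).card := by
  have h3 : (Finset.Ico a c).filter P = (Finset.Ico a b).filter P ∪ (Finset.Ico b c).filter P := by
    rw [← Finset.filter_union, Finset.Ico_union_Ico_eq_Ico h1 h2]
  have h4 : Disjoint ((Finset.Ico a b).filter P) ((Finset.Ico b c).filter P) :=
    Finset.disjoint_filter_filter (Finset.Ico_disjoint_Ico_consecutive a b c)
  rw [h3, Finset.card_union_of_disjoint h4]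
  push_cast
  rfl

theorem count_triv (P : ℕ → Prop) [DecidablePred P] {a b : ℕ} (h : a ≤ b) {v : ℝ} (hv : 0 ≤ v ∧ v ≤ 1) :
    |(((Finset.Ico a b).filter P).card : ℝ) - ((b : ℝ) - a) * v| ≤ (b : ℝ) - a := by
  have h1 : (((Finset.Ico a b).filter P).card : ℝ) ≤ (b : ℝ) - a := by
    have h2 := Finset.card_filter_le (Finset.Ico a b) P
    rw [Nat.card_Ico] at h2
    have h3 : (((Finset.Ico a b).filter P).card : ℝ) ≤ ((b - a : ℕ) : ℝ) := by exact_mod_cast h2
    rwa [Nat.cast_sub h] at h3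
  have h2 : (0 : ℝ) ≤ ((Finset.Ico a b).filter P).card := Nat.cast_nonneg _
  have h3 : 0 ≤ (b : ℝ) - a := h2.trans h1
  have h4 : ((b : ℝ) - a) * v ≤ (b : ℝ) - a := mul_le_of_le_one_right h3 hv.2
  have h5 : 0 ≤ ((b : ℝ) - a) * v := mul_nonneg h3 hv.1
  rw [abs_le]
  constructor <;> linarith

theorem asm9 {β : Type} (Q : β → ℕ → Prop) (v : β → ℝ) (hv : ∀ b, 0 ≤ v b ∧ v b ≤ 1) {ν : ℕ → ℕ} (hν : Monotone ν) {X K₀ : ℕ} {Ex : ℕ → ℕ}
    (hK₀ : 1 ≤ K₀) (hEx : Monotone Ex) (hν1 : ∀ σ k, kp σ ≤ k → k < kp (σ + 1) → ν (k + 1) ≤ ν k + (K₀ + σ) ^ Ex σ) (hν2 : ∀ k, k ≤ X * ν k) (i : ℕ)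
    (hE : ∀ σ ≥ i, ∀ k, kp σ ≤ k → k ≤ kp (σ + 1) → ∀ b : β,
      (by classical exact |(((Finset.Ico (ν (kp σ)) (ν k)).filter fun n : ℕ => Q b n).card : ℝ) -
        ((ν k : ℝ) - ν (kp σ)) * v b| ≤ ((K₀ + σ : ℕ) : ℝ) ^ Ex σ)) :
    ∃ N₀ : ℕ, ∀ N ≥ N₀, ∃ σ, K₀ + σ ≤ N ∧ ∀ b : β,
      (by classical exact |(((Finset.range N).filter fun n : ℕ => Q b n).card : ℝ) - N * v b| ≤ Real.log N ^ (2 * Ex σ + 6)) := by
  classical
  -- at the starts of the phases
  have hph : ∀ d, ∀ b : β, |(((Finset.Ico 0 (ν (kp (i + d)))).filter fun n : ℕ => Q b n).card : ℝ) - (((ν (kp (i + d)) : ℕ) : ℝ) - (0 : ℕ)) * v b| ≤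
      ν (kp i) + d * ((K₀ + (i + d) : ℕ) : ℝ) ^ Ex (i + d) := by
    intro d
    induction d with
    | zero =>
      intro b
      have h1 := count_triv (fun n => Q b n) (Nat.zero_le (ν (kp (i + 0)))) (hv b)
      refine h1.trans ?_
      simp
    | succ d ih =>
      intro b
      have h1 := ih b
      have h2 := hE (i + d) (Nat.le_add_right _ _) (kp (i + d + 1)) (kp_strict.monotone (Nat.le_succ _)) le_rfl b
      have h3 := count_add (fun n => Q b n) (Nat.zero_le (ν (kp (i + d)))) (hν (kp_strict.monotone (Nat.le_succ (i + d))))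
      rw [show i + (d + 1) = (i + d).succ from rfl, h3]
      have h4 : ((K₀ + (i + d) : ℕ) : ℝ) ^ Ex (i + d) ≤ ((K₀ + (i + d).succ : ℕ) : ℝ) ^ Ex (i + d).succ := by
        have h5 : (1 : ℝ) ≤ ((K₀ + (i + d).succ : ℕ) : ℝ) := by exact_mod_cast (by omega : 1 ≤ K₀ + (i + d).succ)
        calc ((K₀ + (i + d) : ℕ) : ℝ) ^ Ex (i + d) ≤ ((K₀ + (i + d).succ : ℕ) : ℝ) ^ Ex (i + d) := by
              refine pow_le_pow_left₀ (Nat.cast_nonneg _) ?_ _
              exact_mod_cast (by omega : K₀ + (i + d) ≤ K₀ + (i + d).succ)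
          _ ≤ _ := pow_le_pow_right₀ h5 (hEx (Nat.le_succ _))
      have h6 : (d : ℝ) * ((K₀ + (i + d) : ℕ) : ℝ) ^ Ex (i + d) ≤ d * ((K₀ + (i + d).succ : ℕ) : ℝ) ^ Ex (i + d).succ :=
        mul_le_mul_of_nonneg_left h4 (Nat.cast_nonneg _)
      rw [abs_le] at h1 h2 ⊢
      push_cast at h1 h2 h4 h6 ⊢
      constructor
      · nlinarith [h1.1, h2.1]
      · nlinarith [h1.2, h2.2]
  -- large N
  have hev : ∀ᶠ N : ℕ in atTop, 2 ≤ Real.log N ∧ (ν (kp i) : ℝ) ≤ Real.log N ^ 2 ∧ (K₀ : ℝ) + 2 * Real.log (X + 1) + 2 * Real.log N + 2 ≤ Real.log N ^ 2 ∧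
      Real.log N ^ 2 ≤ N ∧ ν (kp i) ≤ N := by
    have hlog : Tendsto (fun N : ℕ => Real.log N) atTop atTop := Real.tendsto_log_atTop.comp tendsto_natCast_atTop_atTop
    have h1 := hlog.eventually (eventually_ge_atTop (2 : ℝ))
    have h2 := hlog.eventually (eventually_ge_atTop (ν (kp i) : ℝ))
    have h3 := hlog.eventually (eventually_ge_atTop ((K₀ : ℝ) + 2 * Real.log (X + 1) + 4))
    have h4 : ∀ᶠ N : ℕ in atTop, Real.log N ^ 2 ≤ N := by
      have h5 := (Real.isLittleO_pow_log_id_atTop (n := 2)).bound (zero_lt_one)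
      have h6 := tendsto_natCast_atTop_atTop (R := ℝ) |>.eventually h5
      filter_upwards [h6] with N hN
      rw [one_mul, id, Real.norm_of_nonneg (by positivity), Real.norm_of_nonneg (Nat.cast_nonneg N)] at hN
      exact hN
    filter_upwards [h1, h2, h3, h4, eventually_ge_atTop (ν (kp i))] with N e1 e2 e3 e4 e5
    refine ⟨e1, ?_, ?_, e4, e5⟩
    · nlinarith
    · have h6 : 0 ≤ Real.log ((X : ℝ) + 1) := Real.log_nonneg (by have : (0 : ℝ) ≤ X := Nat.cast_nonneg X; linarith)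
      have h7 : (0 : ℝ) ≤ K₀ := Nat.cast_nonneg K₀
      nlinarith
  obtain ⟨N₀, hN₀⟩ := eventually_atTop.1 hev
  refine ⟨N₀, fun N hN => ?_⟩
  obtain ⟨e1, e2, e3, e4, e5⟩ := hN₀ N hN
  -- the block of N
  have hex : ∃ k, N < ν (k + 1) := by
    refine ⟨X * N + 1, ?_⟩
    by_contra hcon
    push Not at hcon
    have h1 := hν2 (X * N + 1 + 1)
    have h2 : X * ν (X * N + 1 + 1) ≤ X * N := Nat.mul_le_mul_left _ hcon
    omega
  obtain ⟨k, hk, hkmin⟩ : ∃ k, N < ν (k + 1) ∧ ∀ j < k, ν (j + 1) ≤ N :=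
    ⟨Nat.find hex, Nat.find_spec hex, fun j hj => not_lt.1 (Nat.find_min hex hj)⟩
  have hki : kp i ≤ k := by
    by_contra hcon
    push Not at hcon
    have := hν (show k + 1 ≤ kp i by omega)
    omega
  have hνk : ν k ≤ N := by
    rcases Nat.eq_zero_or_pos k with h0 | h0
    · have h1 : ν k ≤ ν (kp i) := hν (by omega)
      omega
    · have := hkmin (k - 1) (by omega)
      rwa [Nat.sub_add_cancel h0] at this
  obtain ⟨σ, hσ1, hσ2⟩ := exists_phase k
  have hσi : i ≤ σ := by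
    by_contra hcon
    push Not at hcon
    have := kp_strict.monotone (show σ + 1 ≤ i by omega)
    omega
  obtain ⟨d, rfl⟩ := Nat.exists_eq_add_of_le hσi
  set y := Real.log N with hy
  have hN1 : (1 : ℝ) ≤ N := by
    by_contra hcon
    push Not at hcon
    have : N = 0 := by
      have : N < 1 := by exact_mod_cast hcon
      omega
    rw [hy, this] at e1
    norm_num at e1
  -- the phase and log N
  have hKy : ((K₀ + (i + d) : ℕ) : ℝ) + 2 ≤ y ^ 2 := by
    have h1 : 2 ^ (i + d) ≤ (X + 1) * N := by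
      have h2 := hν2 k
      have h3 := kp_val (i + d)
      have h4 : X * ν k ≤ X * N := Nat.mul_le_mul_left _ hνk
      have h5 : 1 ≤ N := by exact_mod_cast hN1
      have h6 : (X + 1) * N = X * N + N := by ring
      omega
    have h2 : ((i + d : ℕ) : ℝ) * Real.log 2 ≤ Real.log (X + 1) + y := by
      have h3 : (2 : ℝ) ^ (i + d) ≤ ((X : ℝ) + 1) * N := by exact_mod_cast h1
      have h4 := Real.log_le_log (by positivity) h3
      rw [Real.log_pow, Real.log_mul (by positivity) (by positivity)] at h4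
      exact h4
    have h3 : (1 / 2 : ℝ) ≤ Real.log 2 := by
      have := Real.log_two_gt_d9
      linarith
    have h4 : ((i + d : ℕ) : ℝ) * (1 / 2) ≤ ((i + d : ℕ) : ℝ) * Real.log 2 := mul_le_mul_of_nonneg_left h3 (Nat.cast_nonneg _)
    push_cast at h2 h4 ⊢
    linarith
  refine ⟨i + d, ?_, fun b => ?_⟩
  · have h1 : ((K₀ + (i + d) : ℕ) : ℝ) ≤ N := by linarith
    exact_mod_cast h1
  -- the sum
  have h1 := hph d b
  have h2 := hE (i + d) (Nat.le_add_right _ _) k hσ1 hσ2.le b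
  have h3 := count_triv (fun n => Q b n) hνk (hv b)
  have h4 : (N : ℝ) - ν k ≤ ((K₀ + (i + d) : ℕ) : ℝ) ^ Ex (i + d) := by
    have h5 := hν1 (i + d) k hσ1 hσ2
    have h6 : (N : ℝ) ≤ ((ν k + (K₀ + (i + d)) ^ Ex (i + d) : ℕ) : ℝ) := by exact_mod_cast (hk.le.trans h5)
    push_cast at h6 ⊢
    linarith
  have h5 := count_add (fun n => Q b n) (Nat.zero_le (ν (kp (i + d)))) ((hν hσ1).trans hνk)
  have h6 := count_add (fun n => Q b n) (hν hσ1) hνk
  obtain ⟨Kp, hKp⟩ : ∃ Kp : ℝ, Kp = ((K₀ + (i + d) : ℕ) : ℝ) ^ Ex (i + d) := ⟨_, rfl⟩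
  have hKp0 : 0 ≤ Kp := by rw [hKp]; positivity
  have hKpy : Kp ≤ y ^ (2 * Ex (i + d)) := by
    rw [hKp, pow_mul]
    exact pow_le_pow_left₀ (Nat.cast_nonneg _) (by linarith) _
  have hd : (d : ℝ) + 2 ≤ y ^ 2 := by
    have : (d : ℝ) ≤ ((K₀ + (i + d) : ℕ) : ℝ) := by exact_mod_cast (by omega : d ≤ K₀ + (i + d))
    linarith
  have htot : |(((Finset.range N).filter fun n : ℕ => Q b n).card : ℝ) - N * v b| ≤ ν (kp i) + (d + 2) * Kp := by
    rw [← hKp] at h1 h2 h4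
    rw [Finset.range_eq_Ico, h5, h6]
    have h7 : (N : ℝ) * v b = (((ν (kp (i + d)) : ℕ) : ℝ) - (0 : ℕ)) * v b + (((ν k : ℕ) : ℝ) - ν (kp (i + d))) * v b + ((N : ℝ) - ν k) * v b := by
      push_cast
      ring
    rw [h7]
    rw [abs_le] at h1 h2 h3 ⊢
    constructor
    · linarith [h1.1, h2.1, h3.1]
    · linarith [h1.2, h2.2, h3.2]
  refine htot.trans ?_
  have hy1 : 1 ≤ y := by linarith
  have hyE : 1 ≤ y ^ (2 * Ex (i + d)) := one_le_pow₀ hy1
  have hy4 : 4 ≤ y ^ 2 := by nlinarith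
  calc (ν (kp i) : ℝ) + (d + 2) * Kp ≤ y ^ 2 + y ^ 2 * y ^ (2 * Ex (i + d)) := by
        refine add_le_add e2 (mul_le_mul hd hKpy hKp0 (by positivity))
    _ ≤ y ^ 2 * y ^ (2 * Ex (i + d)) + y ^ 2 * y ^ (2 * Ex (i + d)) := by
        have := le_mul_of_one_le_right (show (0 : ℝ) ≤ y ^ 2 by positivity) hyE
        linarith
    _ = 2 * y ^ 2 * y ^ (2 * Ex (i + d)) := by ring
    _ ≤ y ^ 6 * y ^ (2 * Ex (i + d)) := by
        refine mul_le_mul_of_nonneg_right ?_ (by positivity)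
        have h8 : y ^ 6 = y ^ 2 * (y ^ 2 * y ^ 2) := by ring
        rw [h8]
        nlinarith
    _ = y ^ (2 * Ex (i + d) + 6) := by rw [pow_add]; ring

end Pool.Agent.Helper78.LD9
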