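import Pool.Agent.Helper78.LD8.Defs
import Pool.Agent.Helper44.LD8.TT8b
import Pool.Agent.Helper41.LD4.Main

/-!
# Project LD8: lengths with a varying number of digits
-/

set_option autoImplicit false

namespace Pool.Agent.Helper78.LD9

open Set MeasureTheory Filter Topology
open Pool.Agent.Helper78.LD8
open Pool.Agent.Helper41.LD2 (bounded_ratio)
open Pool.Agent.Helper41.LD4 (kp kp_zero kp_strict Kk_phase exists_phase phase_len)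
open Pool.Agent.Helper44.LD8 (Tt_block_le Tt_mono Tt_spec)

/-- the number of the digits before the block `k`; `β σ` digits in the blocks of the phase `σ` -/
def dg (β : ℕ → ℕ) (k : ℕ) : ℕ := ∑ j ∈ Finset.range k, β (Nat.log 2 (j + 1))

/-- the lengths -/
noncomputable def lw (β : ℕ → ℕ) (ℓ₀ : ℝ) (k : ℕ) : ℝ := ℓ₀ / 2 ^ dg β k

variable {β : ℕ → ℕ} {ℓ₀ : ℝ}

theorem log_phase {σ k : ℕ} (h1 : kp σ ≤ k) (h2 : k < kp (σ + 1)) : Nat.log 2 (k + 1) = σ := by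
  have h3 := Kk_phase 0 h1 h2
  unfold Pool.Agent.Helper41.LD.Kk at h3
  omega

theorem lw_zero (β : ℕ → ℕ) (ℓ₀ : ℝ) : lw β ℓ₀ 0 = ℓ₀ := by
  unfold lw dg
  simp

theorem lw_pos (h : 0 < ℓ₀) (k : ℕ) : 0 < lw β ℓ₀ k := by
  unfold lw
  positivity

theorem lw_succ (β : ℕ → ℕ) (ℓ₀ : ℝ) (k : ℕ) : lw β ℓ₀ (k + 1) = lw β ℓ₀ k / 2 ^ β (Nat.log 2 (k + 1)) := by
  unfold lw dg
  rw [Finset.sum_range_succ, pow_add, div_div]

theorem lw_phase (β : ℕ → ℕ) (ℓ₀ : ℝ) {σ k : ℕ} (h1 : kp σ ≤ k) (h2 : k < kp (σ + 1)) : lw β ℓ₀ (k + 1) = lw β ℓ₀ k / 2 ^ β σ := by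
  rw [lw_succ, log_phase h1 h2]

theorem dg_mono (β : ℕ → ℕ) {k k' : ℕ} (h : k ≤ k') : dg β k ≤ dg β k' :=
  Finset.sum_le_sum_of_subset (Finset.range_mono h)

theorem lw_anti (h : 0 < ℓ₀) {k k' : ℕ} (hk : k ≤ k') : lw β ℓ₀ k' ≤ lw β ℓ₀ k := by
  unfold lw
  exact div_le_div_of_nonneg_left h.le (by positivity) (pow_le_pow_right₀ (by norm_num) (dg_mono β hk))

theorem dg_ge (hβ : ∀ σ, 1 ≤ β σ) (k : ℕ) : k ≤ dg β k := by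
  induction k with
  | zero => exact Nat.zero_le _
  | succ k ih =>
    unfold dg at ih ⊢
    rw [Finset.sum_range_succ]
    have := hβ (Nat.log 2 (k + 1))
    omega

theorem lw_le (h : 0 < ℓ₀) (hβ : ∀ σ, 1 ≤ β σ) (k : ℕ) : lw β ℓ₀ k ≤ ℓ₀ * (1 / 2) ^ k := by
  unfold lw
  rw [one_div_pow, mul_one_div]
  exact div_le_div_of_nonneg_left h.le (by positivity) (pow_le_pow_right₀ (by norm_num) (dg_ge hβ k))

theorem lw_tendsto (h : 0 < ℓ₀) (hβ : ∀ σ, 1 ≤ β σ) : Tendsto (lw β ℓ₀) atTop (𝓝 0) := by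
  have h1 : Tendsto (fun k : ℕ => ℓ₀ * (1 / 2 : ℝ) ^ k) atTop (𝓝 0) := by
    have := (tendsto_pow_atTop_nhds_zero_of_lt_one (by norm_num : (0 : ℝ) ≤ 1 / 2) (by norm_num)).const_mul ℓ₀
    rwa [mul_zero] at this
  exact squeeze_zero (fun k => (lw_pos h k).le) (lw_le h hβ) h1

/-! ## Times -/

/-- the steps of the times in a phase -/
theorem Tt_phase {F : Pm} (hF : F.Ok) (h : 0 < ℓ₀) {Θ : ℝ} (hΘ : 0 ≤ Θ) {σ k : ℕ} (h1 : kp σ ≤ k) (h2 : k ≤ kp (σ + 1)) :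
    Tt F.θ Θ (lw β ℓ₀ k) ≤ Tt F.θ Θ (lw β ℓ₀ (kp σ)) + 2 ^ σ * (F.X * β σ) := by
  have key : ∀ d, kp σ + d ≤ kp (σ + 1) → Tt F.θ Θ (lw β ℓ₀ (kp σ + d)) ≤ Tt F.θ Θ (lw β ℓ₀ (kp σ)) + d * (F.X * β σ) := by
    intro d
    induction d with
    | zero => intro _; simp
    | succ d ih =>
      intro hd
      have h3 := Tt_block_le hF (lw_pos (β := β) h (kp σ + d)) hΘ (β σ)
      rw [← lw_phase β ℓ₀ (Nat.le_add_right _ _) (by omega)] at h3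
      have h4 := ih (by omega)
      have h5 : (d + 1) * (F.X * β σ) = d * (F.X * β σ) + F.X * β σ := by ring
      rw [h5, ← add_assoc (kp σ)]
      omega
  obtain ⟨d, rfl⟩ := Nat.exists_eq_add_of_le h1
  have h3 := key d h2
  have h4 : d ≤ 2 ^ σ := by
    have h5 := phase_len h2
    rwa [Nat.add_sub_cancel_left] at h5
  have h6 := Nat.mul_le_mul_right (F.X * β σ) h4
  omega

/-- the number of the times is at least the number of the blocks -/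
theorem nu_ge {F : Pm} (hF : F.Ok) (h : 0 < ℓ₀) (h1 : ℓ₀ ≤ 1) (hβ : ∀ σ, 1 ≤ β σ) (k : ℕ) : k ≤ F.X * Tt F.θ 1 (lw β ℓ₀ k) := by
  have h2 : 1 ≤ F.θ ^ Tt F.θ 1 (lw β ℓ₀ k) * lw β ℓ₀ k := Tt_spec hF.h1 (lw_pos h k)
  have h3 : lw β ℓ₀ k ≤ (1 / 2) ^ k := (lw_le h hβ k).trans (mul_le_of_le_one_left (by positivity) h1)
  have hθ0 : 0 < F.θ := by have := hF.h1; linarith
  have h4 : F.θ ^ Tt F.θ 1 (lw β ℓ₀ k) ≤ 2 ^ (F.X * Tt F.θ 1 (lw β ℓ₀ k)) := by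
    rw [pow_mul]
    exact pow_le_pow_left₀ hθ0.le hF.hθ2 _
  have h5 : (1 : ℝ) ≤ 2 ^ (F.X * Tt F.θ 1 (lw β ℓ₀ k)) * (1 / 2) ^ k :=
    h2.trans (mul_le_mul h4 h3 (lw_pos h k).le (by positivity))
  have h6 : (2 : ℝ) ^ k ≤ 2 ^ (F.X * Tt F.θ 1 (lw β ℓ₀ k)) := by
    have h7 : (2 : ℝ) ^ (F.X * Tt F.θ 1 (lw β ℓ₀ k)) = 2 ^ (F.X * Tt F.θ 1 (lw β ℓ₀ k)) * (1 / 2) ^ k * 2 ^ k := by
      rw [mul_assoc, ← mul_pow]
      norm_num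
    rw [h7]
    exact le_mul_of_one_le_left (by positivity) h5
  exact (pow_le_pow_iff_right₀ (by norm_num : (1 : ℝ) < 2)).1 h6

/-! ## Masses -/

theorem ev_ratio9 {s : ℝ} (hs1 : s < 1) : ∀ᶠ K : ℕ in atTop, 3 * ((K : ℝ) + 1) ^ 2 ≤ (1 - s) * (K : ℝ) ^ 3 := by
  obtain ⟨n, hn⟩ := exists_nat_gt (12 / (1 - s))
  filter_upwards [eventually_ge_atTop (n + 1)] with K hK
  have h0 : 0 < 1 - s := by linarith
  have h1 : (n : ℝ) ≤ K := by exact_mod_cast (by omega : n ≤ K)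
  have h2 : (1 : ℝ) ≤ K := by exact_mod_cast (by omega : 1 ≤ K)
  have h3 : 12 ≤ (1 - s) * K := by
    have := (div_lt_iff₀ h0).1 hn
    nlinarith
  have h4 : ((K : ℝ) + 1) ^ 2 ≤ 4 * (K : ℝ) ^ 2 := by nlinarith
  have h5 : 12 * (K : ℝ) ^ 2 ≤ (1 - s) * K * (K : ℝ) ^ 2 := mul_le_mul_of_nonneg_right h3 (by positivity)
  have h6 : (1 - s) * (K : ℝ) ^ 3 = (1 - s) * K * (K : ℝ) ^ 2 := by ring
  rw [h6]
  linarith

theorem log_succ_le (k : ℕ) : Nat.log 2 (k + 1 + 1) ≤ Nat.log 2 (k + 1) + 1 := by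
  have h1 : k + 1 < 2 ^ (Nat.log 2 (k + 1) + 1) := Nat.lt_pow_succ_log_self (by norm_num) _
  have h2 : k + 1 + 1 < 2 ^ (Nat.log 2 (k + 1) + 1 + 1) := by
    rw [pow_succ]
    omega
  exact Nat.le_of_lt_succ (Nat.log_lt_of_lt_pow (by omega) h2)

theorem mass9 (h : 0 < ℓ₀) {K₀ : ℕ} {e : ℕ → ℕ} (he : ∀ σ, e σ ≤ (K₀ + σ) ^ 2) (hβ : ∀ σ, (K₀ + σ) ^ 3 ≤ β σ) {s : ℝ} (hs : 0 < s) (hs1 : s < 1) :
    ∃ C : ℝ, ∀ k, (∏ j ∈ Finset.range (k + 1), ((1 / 2 : ℝ) ^ (3 * e (Nat.log 2 (j + 1))))⁻¹) * lw β ℓ₀ k ^ (1 - s) ≤ C := by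
  have hK : Tendsto (fun k : ℕ => K₀ + Nat.log 2 (k + 1)) atTop atTop := by
    refine tendsto_atTop_mono (fun k => Nat.le_add_left _ _) ?_
    refine tendsto_atTop_atTop.2 fun b => ⟨2 ^ b, fun k hk => ?_⟩
    exact Nat.le_log_of_pow_le (by norm_num) (by omega)
  obtain ⟨k₀, hk₀⟩ := eventually_atTop.1 (hK.eventually (ev_ratio9 hs1))
  refine bounded_ratio (k₀ := k₀) (fun k => ?_) fun k hk => ?_
  · exact mul_nonneg (Finset.prod_nonneg fun j _ => by positivity) (Real.rpow_nonneg (lw_pos h k).le _)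
  · have hpos := lw_pos (β := β) h k
    obtain ⟨σ, hσ⟩ : ∃ σ, σ = Nat.log 2 (k + 1) := ⟨_, rfl⟩
    have hXpos : (0 : ℝ) < 2 ^ β σ := by positivity
    rw [Finset.prod_range_succ _ (k + 1), lw_succ, ← hσ, Real.div_rpow hpos.le hXpos.le]
    have h3 := hk₀ k hk
    rw [← hσ] at h3
    have e3 : ((1 / 2 : ℝ) ^ (3 * e (Nat.log 2 (k + 1 + 1))))⁻¹ ≤ ((2 : ℝ) ^ β σ) ^ (1 - s) := by
      have e4 : ((1 / 2 : ℝ) ^ (3 * e (Nat.log 2 (k + 1 + 1))))⁻¹ = 2 ^ (3 * e (Nat.log 2 (k + 1 + 1))) := by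
        rw [← inv_pow]; norm_num
      have e5 : ((2 : ℝ) ^ β σ) ^ (1 - s) = 2 ^ ((β σ : ℝ) * (1 - s)) := by
        rw [← Real.rpow_natCast, ← Real.rpow_mul (by norm_num)]
      rw [e4, e5, ← Real.rpow_natCast]
      refine Real.rpow_le_rpow_of_exponent_le (by norm_num) ?_
      have e6 : e (Nat.log 2 (k + 1 + 1)) ≤ (K₀ + σ + 1) ^ 2 := by
        refine (he _).trans (Nat.pow_le_pow_left ?_ 2)
        have := log_succ_le k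
        rw [← hσ] at this
        omega
      have e7 : ((3 * e (Nat.log 2 (k + 1 + 1)) : ℕ) : ℝ) ≤ 3 * (((K₀ + σ : ℕ) : ℝ) + 1) ^ 2 := by
        have : ((e (Nat.log 2 (k + 1 + 1)) : ℕ) : ℝ) ≤ (((K₀ + σ + 1) ^ 2 : ℕ) : ℝ) := by exact_mod_cast e6
        push_cast at this ⊢
        linarith
      have e8 : ((((K₀ + σ) ^ 3 : ℕ)) : ℝ) ≤ (β σ : ℕ) := by exact_mod_cast hβ σ
      have e9 : (1 - s) * ((K₀ + σ : ℕ) : ℝ) ^ 3 ≤ (β σ : ℝ) * (1 - s) := by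
        have h0 : 0 ≤ 1 - s := by linarith
        have := mul_le_mul_of_nonneg_left e8 h0
        push_cast at this ⊢
        linarith
      exact e7.trans (h3.trans e9)
    have hP0 : 0 ≤ ∏ j ∈ Finset.range (k + 1), ((1 / 2 : ℝ) ^ (3 * e (Nat.log 2 (j + 1))))⁻¹ := Finset.prod_nonneg fun j _ => by positivity
    have hBs : 0 < ((2 : ℝ) ^ β σ) ^ (1 - s) := Real.rpow_pos_of_pos hXpos _
    have hℓs : 0 ≤ lw β ℓ₀ k ^ (1 - s) := Real.rpow_nonneg hpos.le _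
    rw [mul_div_assoc', div_le_iff₀ hBs]
    calc (∏ j ∈ Finset.range (k + 1), ((1 / 2 : ℝ) ^ (3 * e (Nat.log 2 (j + 1))))⁻¹) * ((1 / 2 : ℝ) ^ (3 * e (Nat.log 2 (k + 1 + 1))))⁻¹ * lw β ℓ₀ k ^ (1 - s)
        ≤ (∏ j ∈ Finset.range (k + 1), ((1 / 2 : ℝ) ^ (3 * e (Nat.log 2 (j + 1))))⁻¹) * ((2 : ℝ) ^ β σ) ^ (1 - s) * lw β ℓ₀ k ^ (1 - s) := by
          gcongr
      _ = _ := by ring

end Pool.Agent.Helper78.LD9
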