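import Pool.Agent.Helper78.LD8.Main
import Pool.Agent.Helper78.LD8.Len9
import Pool.Agent.Helper78.LD8.Asm9

/-!
# Project LD8: the multiples of a geometric progression, all shifts at once
-/

set_option autoImplicit false

namespace Pool.Agent.Helper78.LD9

open Set MeasureTheory Filter Topology
open Pool.Agent.Helper78.LD8 (Pm Uf Tt)
open Pool.Agent.Helper41.LD2 (dimH_le_one)
open Pool.Agent.Helper41.LD4 (kp kp_zero kp_strict exists_phase phase_len fam fam_spec le_fam)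
open Pool.Agent.Helper41.LD6 (Qs)
open Pool.Agent.Helper89.LD (dim_homog)
open Pool.Agent.Helper95.KX (SMeas)

/-! ## The resonances -/

theorem ev_NR9 {θ : ℝ} (hθ : 1 < θ) (hm : SMeas θ) : ∃ a : ℕ → ℕ, Monotone a ∧ (∀ d, 2 ≤ a d) ∧
    ∀ (X : ℕ) (c : ℕ → ℝ) (d : ℕ), ∀ᶠ K : ℕ in atTop, Pm.NR ⟨d, X, a d, θ, c⟩ K := by
  have h := fun d => Pool.Agent.Helper78.LD8n.ev_NR hθ hm d
  choose a ha h using h
  have hle : ∀ d, a d ≤ ∑ i ∈ Finset.range (d + 1), a i := fun d =>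
    Finset.single_le_sum (f := a) (fun _ _ => Nat.zero_le _) (Finset.mem_range.2 (Nat.lt_succ_self d))
  refine ⟨fun d => ∑ i ∈ Finset.range (d + 1), a i, fun d d' hd => Finset.sum_le_sum_of_subset (Finset.range_mono (by omega)),
    fun d => (ha d).trans (hle d), fun X c d => ?_⟩
  filter_upwards [h d X c, eventually_ge_atTop 1] with K h1 hK
  intro I hI m hmI hm0 v hv hvI
  refine le_trans ?_ (h1 I hI m hmI hm0 v hv hvI)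
  refine mul_le_mul_of_nonneg_right ?_ hv
  exact pow_le_pow_of_le_one (by norm_num) (by norm_num) (Nat.pow_le_pow_right hK (hle d))

/-! ## The tree -/

/-- the family of the phase `σ` -/
def Fs (X : ℕ) (θ : ℝ) (c : ℕ → ℝ) (dm am : ℕ → ℕ) (σ : ℕ) : Pm := ⟨dm σ, X, am σ, θ, c⟩

/-- the number of the digits of the blocks of the phase -/
def bt (K₀ : ℕ) (am : ℕ → ℕ) (σ : ℕ) : ℕ := (K₀ + σ) ^ (2 * am σ + 1)

/-- the requirements of all levels -/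
structure Rq (X : ℕ) (θ : ℝ) (c : ℕ → ℝ) (dm am : ℕ → ℕ) (K₀ : ℕ) (ℓ₀ : ℝ) : Prop where
  ok : ∀ σ, (Fs X θ c dm am σ).Ok
  pos : 0 < ℓ₀
  le : ℓ₀ ≤ 1
  big : ∀ σ, (Fs X θ c dm am σ).Big (K₀ + σ)
  big2 : ∀ σ, (Fs X θ c dm am σ).Z * (Fs X θ c dm am σ).b (K₀ + σ) * (K₀ + σ) ≤ 2 ^ (K₀ + σ)
  nr : ∀ σ, (Fs X θ c dm am σ).NR (K₀ + σ)
  cf : ∀ σ, (Fs X θ c dm am σ).cF ≤ K₀ + σ

/-- a good window of level `k` -/
def GoodM (X : ℕ) (θ : ℝ) (c : ℕ → ℝ) (dm am : ℕ → ℕ) (K₀ : ℕ) (ℓ₀ : ℝ) (k : ℕ) (a : ℝ) : Prop :=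
  ∀ σ, kp σ < k → k ≤ kp (σ + 1) →
    (Fs X θ c dm am σ).Good (K₀ + σ) (lw (bt K₀ am) ℓ₀ (kp σ)) a (lw (bt K₀ am) ℓ₀ k)

variable {X : ℕ} {θ : ℝ} {c : ℕ → ℝ} {dm am : ℕ → ℕ} {K₀ : ℕ} {ℓ₀ : ℝ}

theorem good_at (R : Rq X θ c dm am K₀ ℓ₀) {k : ℕ} {a : ℝ} (h : GoodM X θ c dm am K₀ ℓ₀ k a) {σ : ℕ} (h1 : kp σ ≤ k) (h2 : k ≤ kp (σ + 1)) :
    (Fs X θ c dm am σ).Good (K₀ + σ) (lw (bt K₀ am) ℓ₀ (kp σ)) a (lw (bt K₀ am) ℓ₀ k) := by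
  rcases eq_or_lt_of_le h1 with h3 | h3
  · rw [← h3]
    exact Pool.Agent.Helper89.LD8.stage_start8 (R.ok σ) (R.big σ) (R.nr σ) (lw_pos R.pos _) a
  · exact h σ h3 h2

theorem lw_le_one (R : Rq X θ c dm am K₀ ℓ₀) (k : ℕ) : lw (bt K₀ am) ℓ₀ k ≤ 1 := by
  have h2 := lw_anti (β := bt K₀ am) R.pos (Nat.zero_le k)
  rw [lw_zero] at h2
  exact h2.trans R.le

theorem K_pos (R : Rq X θ c dm am K₀ ℓ₀) (σ : ℕ) : 1 ≤ K₀ + σ :=
  (by norm_num : 1 ≤ 1000000000000).trans (Pool.Agent.Helper80.LD8.num_K (R.big σ))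

theorem bt_pos (R : Rq X θ c dm am K₀ ℓ₀) (σ : ℕ) : 1 ≤ bt K₀ am σ := Nat.one_le_pow _ _ (K_pos R σ)

theorem T_le (R : Rq X θ c dm am K₀ ℓ₀) {σ k : ℕ} (h1 : kp σ ≤ k) (h2 : k ≤ kp (σ + 1)) :
    (Fs X θ c dm am σ).T (K₀ + σ) (lw (bt K₀ am) ℓ₀ (kp σ)) (lw (bt K₀ am) ℓ₀ k) ≤ 2 ^ (K₀ + σ) * (X * (Fs X θ c dm am σ).b (K₀ + σ)) := by
  have h3 := Tt_phase (β := bt K₀ am) (R.ok σ) R.pos (Θ := (Fs X θ c dm am σ).Th (K₀ + σ)) (by unfold Pm.Th; positivity) h1 h2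
  have h4 : 2 ^ σ * ((Fs X θ c dm am σ).X * bt K₀ am σ) ≤ 2 ^ (K₀ + σ) * (X * (Fs X θ c dm am σ).b (K₀ + σ)) :=
    Nat.mul_le_mul_right _ (Nat.pow_le_pow_right (by norm_num) (Nat.le_add_left _ _))
  unfold Pm.T Pm.n₀
  omega

theorem num_count {F : Pm} (hF : F.Ok) {K n : ℕ} (hb : F.Big K) (hb2 : F.Z * F.b K * K ≤ 2 ^ K) (hn : n ≤ 2 ^ K * (F.X * F.b K)) :
    n + F.r K ≤ 2 ^ (2 * K) := by
  have h1 := (Pool.Agent.Helper80.LD8.num_r hF hb).1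
  have h2 := (Pool.Agent.Helper80.LD8.num_Z F).2.1
  have h3 : 1 ≤ K := (by norm_num : 1 ≤ 1000000000000).trans (Pool.Agent.Helper80.LD8.num_K hb)
  have hr : F.r K ≤ F.b K := by
    rcases Nat.eq_zero_or_pos (F.r K) with h0 | h0
    · rw [h0]; exact Nat.zero_le _
    · exact (Nat.le_self_pow two_ne_zero _).trans h1
  have h4 : (F.X + 1) * F.b K ≤ 2 ^ K := by
    refine le_trans ?_ hb2
    calc (F.X + 1) * F.b K ≤ F.Z * F.b K := Nat.mul_le_mul_right _ h2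
      _ ≤ F.Z * F.b K * K := Nat.le_mul_of_pos_right _ h3
  have h2K : 1 ≤ 2 ^ K := Nat.one_le_two_pow
  calc n + F.r K ≤ 2 ^ K * (F.X * F.b K) + 2 ^ K * F.b K :=
        Nat.add_le_add hn (hr.trans (Nat.le_mul_of_pos_left _ h2K))
    _ = 2 ^ K * ((F.X + 1) * F.b K) := by ring
    _ ≤ 2 ^ K * 2 ^ K := Nat.mul_le_mul_left _ h4
    _ = 2 ^ (2 * K) := by rw [two_mul, pow_add]

/-- one block -/
theorem good_step (R : Rq X θ c dm am K₀ ℓ₀) (k : ℕ) (a : ℝ) (h : GoodM X θ c dm am K₀ ℓ₀ k a) :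
    (1 / 2 : ℝ) ^ (3 * ((dm (Nat.log 2 (k + 1)) + 4) * (K₀ + Nat.log 2 (k + 1)))) * ((2 ^ bt K₀ am (Nat.log 2 (k + 1)) : ℕ) : ℝ) ≤
      (by classical exact (((Finset.range (2 ^ bt K₀ am (Nat.log 2 (k + 1)))).filter fun b : ℕ =>
        GoodM X θ c dm am K₀ ℓ₀ (k + 1) (a + b * lw (bt K₀ am) ℓ₀ (k + 1))).card : ℝ)) := by
  classical
  obtain ⟨σ, hσ1, hσ2⟩ := exists_phase k
  have hℓk := lw_pos (β := bt K₀ am) R.pos k
  have h1 := good_at R h hσ1 hσ2.le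
  have hT := T_le R (hσ1.trans (Nat.le_succ k)) (Nat.succ_le_of_lt hσ2)
  have e0 : lw (bt K₀ am) ℓ₀ (k + 1) = lw (bt K₀ am) ℓ₀ k / 2 ^ (Fs X θ c dm am σ).b (K₀ + σ) := lw_phase _ _ hσ1 hσ2
  rw [show k.succ = k + 1 from rfl, e0] at hT
  have h2 := Pool.Agent.Helper52.LD8.stage_step8 (R.ok σ) (R.big σ) (R.big2 σ) (R.nr σ) hℓk (lw_anti R.pos hσ1) (lw_le_one R _)
    (num_count (R.ok σ) (R.big σ) (R.big2 σ) hT) h1
  rw [log_phase hσ1 hσ2]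
  refine h2.trans ?_
  have h3 : ((Finset.range (2 ^ (Fs X θ c dm am σ).b (K₀ + σ))).filter fun b : ℕ =>
      (Fs X θ c dm am σ).Good (K₀ + σ) (lw (bt K₀ am) ℓ₀ (kp σ)) (a + b * (lw (bt K₀ am) ℓ₀ k / (2 ^ (Fs X θ c dm am σ).b (K₀ + σ) : ℕ)))
        (lw (bt K₀ am) ℓ₀ k / (2 ^ (Fs X θ c dm am σ).b (K₀ + σ) : ℕ))) ⊆
      ((Finset.range (2 ^ bt K₀ am σ)).filter fun b : ℕ => GoodM X θ c dm am K₀ ℓ₀ (k + 1) (a + b * lw (bt K₀ am) ℓ₀ (k + 1))) := by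
    intro b hb
    rw [Finset.mem_filter] at hb ⊢
    refine ⟨hb.1, fun σ' e1 e2 => ?_⟩
    have e3 : σ' = σ := by
      rcases lt_trichotomy σ' σ with e | e | e
      · have := kp_strict.monotone (show σ' + 1 ≤ σ by omega)
        omega
      · exact e
      · have := kp_strict.monotone (show σ + 1 ≤ σ' by omega)
        omega
    subst e3
    have e4 : lw (bt K₀ am) ℓ₀ (k + 1) = lw (bt K₀ am) ℓ₀ k / (2 ^ (Fs X θ c dm am σ').b (K₀ + σ') : ℕ) := by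
      rw [e0]
      push_cast
      rfl
    rw [e4]
    exact hb.2
  have h4 := Finset.card_le_card h3
  convert (Nat.cast_le (α := ℝ)).2 h4 using 2

/-- the discrepancy over one phase -/
theorem sum_box (R : Rq X θ c dm am K₀ ℓ₀) {x : ℝ} (hx : ∀ k, ∃ a, GoodM X θ c dm am K₀ ℓ₀ k a ∧ x ∈ Icc a (a + lw (bt K₀ am) ℓ₀ k))
    {σ k : ℕ} (h1 : kp σ ≤ k) (h2 : k ≤ kp (σ + 1)) (α γ : Fin (dm σ + 1) → ℝ) (hαγ : ∀ i, 0 ≤ α i ∧ α i ≤ γ i ∧ γ i ≤ 1) :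
    |(((Finset.Ico (Tt θ 1 (lw (bt K₀ am) ℓ₀ (kp σ))) (Tt θ 1 (lw (bt K₀ am) ℓ₀ k))).filter fun n : ℕ =>
        ∀ i : Fin (dm σ + 1), α i ≤ Int.fract (Uf θ c (n + i) x) ∧ Int.fract (Uf θ c (n + i) x) < γ i).card : ℝ) -
      ((Tt θ 1 (lw (bt K₀ am) ℓ₀ k) : ℝ) - Tt θ 1 (lw (bt K₀ am) ℓ₀ (kp σ))) * ∏ i, (γ i - α i)| ≤
      ((K₀ + σ : ℕ) : ℝ) ^ (2 * am σ + 2 * dm σ + 5) := by
  obtain ⟨a, hg, hxa⟩ := hx k
  have hgood := good_at R hg h1 h2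
  have hT := T_le R h1 h2
  have hc := num_count (R.ok σ) (R.big σ) (R.big2 σ) hT
  have h3 := Pool.Agent.Helper85.LD8.cls8 (R.ok σ) (R.big σ) (lw_pos (β := bt K₀ am) R.pos k) (lw_anti (β := bt K₀ am) R.pos h1) hT
    (fun q hq => Pool.Agent.Helper89.LD8.stage_sums8 (R.ok σ) (R.big σ) (R.nr σ) (lw_pos (β := bt K₀ am) R.pos k) ((Nat.le_add_right _ _).trans hc) hgood hxa hq) α γ hαγ
  refine h3.trans ?_
  have h4 : (((Fs X θ c dm am σ).cF : ℕ) : ℝ) ≤ ((K₀ + σ : ℕ) : ℝ) := by exact_mod_cast R.cf σ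
  calc (((Fs X θ c dm am σ).cF : ℕ) : ℝ) * ((K₀ + σ : ℕ) : ℝ) ^ (2 * am σ + 2 * dm σ + 4) ≤
        ((K₀ + σ : ℕ) : ℝ) * ((K₀ + σ : ℕ) : ℝ) ^ (2 * am σ + 2 * dm σ + 4) := mul_le_mul_of_nonneg_right h4 (by positivity)
    _ = _ := by ring

/-! ## Shifts -/

/-- from windows to shifts -/
theorem proj {d : ℕ} {u : ℕ → ℝ} {S : Finset ℕ} {L E : ℝ} (h : ∀ α γ : Fin (d + 1) → ℝ, (∀ i, 0 ≤ α i ∧ α i ≤ γ i ∧ γ i ≤ 1) →
      |((S.filter fun n : ℕ => ∀ i : Fin (d + 1), α i ≤ Int.fract (u (n + i)) ∧ Int.fract (u (n + i)) < γ i).card : ℝ) - L * ∏ i, (γ i - α i)| ≤ E)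
    {s : ℕ} {ρ : Fin s → ℕ} (hρ : Function.Injective ρ) (hd : ∀ i, ρ i ≤ d) (α γ : Fin s → ℝ) (hαγ : ∀ i, 0 ≤ α i ∧ α i ≤ γ i ∧ γ i ≤ 1) :
    |((S.filter fun n : ℕ => ∀ i : Fin s, α i ≤ Int.fract (u (n + ρ i)) ∧ Int.fract (u (n + ρ i)) < γ i).card : ℝ) - L * ∏ i, (γ i - α i)| ≤ E := by
  classical
  obtain ⟨f, hf⟩ : ∃ f : Fin s → Fin (d + 1), ∀ i, ((f i : Fin (d + 1)) : ℕ) = ρ i :=
    ⟨fun i => ⟨ρ i, Nat.lt_succ_of_le (hd i)⟩, fun i => rfl⟩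
  have hfi : Function.Injective f := fun i j hij => hρ (by rw [← hf i, ← hf j, hij])
  obtain ⟨α', hα'⟩ : ∃ α' : Fin (d + 1) → ℝ, α' = Function.extend f α (fun _ => 0) := ⟨_, rfl⟩
  obtain ⟨γ', hγ'⟩ : ∃ γ' : Fin (d + 1) → ℝ, γ' = Function.extend f γ (fun _ => 1) := ⟨_, rfl⟩
  have h1 : ∀ i, α' (f i) = α i := fun i => by rw [hα']; exact hfi.extend_apply _ _ _
  have h2 : ∀ i, γ' (f i) = γ i := fun i => by rw [hγ']; exact hfi.extend_apply _ _ _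
  have h3 : ∀ j, (¬ ∃ i, f i = j) → α' j = 0 ∧ γ' j = 1 := fun j hj =>
    ⟨by rw [hα']; exact Function.extend_apply' _ _ _ hj, by rw [hγ']; exact Function.extend_apply' _ _ _ hj⟩
  have h4 := h α' γ' fun j => by
    by_cases hj : ∃ i, f i = j
    · obtain ⟨i, rfl⟩ := hj
      rw [h1, h2]
      exact hαγ i
    · rw [(h3 j hj).1, (h3 j hj).2]
      norm_num
  have h5 : ∏ j, (γ' j - α' j) = ∏ i, (γ i - α i) := by
    have h6 : ∏ j ∈ Finset.univ.image f, (γ' j - α' j) = ∏ j, (γ' j - α' j) := by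
      refine Finset.prod_subset (Finset.subset_univ _) fun j _ hj => ?_
      have h7 : ¬ ∃ i, f i = j := by
        rintro ⟨i, rfl⟩
        exact hj (Finset.mem_image_of_mem _ (Finset.mem_univ _))
      rw [(h3 j h7).1, (h3 j h7).2]
      norm_num
    rw [← h6, Finset.prod_image fun i _ j _ hij => hfi hij]
    exact Finset.prod_congr rfl fun i _ => by rw [h1, h2]
  have h6 : (S.filter fun n : ℕ => ∀ j : Fin (d + 1), α' j ≤ Int.fract (u (n + j)) ∧ Int.fract (u (n + j)) < γ' j) =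
      (S.filter fun n : ℕ => ∀ i : Fin s, α i ≤ Int.fract (u (n + ρ i)) ∧ Int.fract (u (n + ρ i)) < γ i) := by
    refine Finset.filter_congr fun n _ => ⟨fun h7 i => ?_, fun h7 j => ?_⟩
    · have h8 := h7 (f i)
      rw [h1, h2, hf] at h8
      exact h8
    · by_cases hj : ∃ i, f i = j
      · obtain ⟨i, rfl⟩ := hj
        rw [h1, h2, hf]
        exact h7 i
      · rw [(h3 j hj).1, (h3 j hj).2]
        exact ⟨Int.fract_nonneg _, Int.fract_lt_one _⟩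
  rw [h5] at h4
  have h7 := congrArg Finset.card h6
  have h8 : ((S.filter fun n : ℕ => ∀ i : Fin s, α i ≤ Int.fract (u (n + ρ i)) ∧ Int.fract (u (n + ρ i)) < γ i).card : ℝ) =
      ((S.filter fun n : ℕ => ∀ j : Fin (d + 1), α' j ≤ Int.fract (u (n + j)) ∧ Int.fract (u (n + j)) < γ' j).card : ℝ) := by
    exact_mod_cast h7.symm
  convert h4 using 3

/-! ## The main theorem -/

theorem fam_mono (thr : ℕ → ℕ) (K₀ : ℕ) : Monotone (fam thr K₀) := by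
  intro σ σ' h
  unfold fam
  exact Nat.findGreatest_mono (fun n (hn : thr n ≤ K₀ + σ) => hn.trans (by omega)) h

theorem main9_ge {θ : ℝ} (hθ : 1 < θ) (hm : SMeas θ) {E : ℕ → ℝ} (hE : ∀ C : ℕ, ∀ᶠ N : ℕ in atTop, Real.log N ^ C ≤ E N) (c : ℕ → ℝ)
    {O : Set ℝ} (hO : IsOpen O) (hne : O.Nonempty) {s : ℝ} (hs : 0 < s) (hs1 : s < 1) :
    ENNReal.ofReal s ≤ dimH {ξ | ξ ∈ O ∧ ∀ (m : ℕ) (ρ : Fin m → ℕ), Function.Injective ρ →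
      ∃ N₀ : ℕ, ∀ N ≥ N₀, Pool.Agent.Helper41.LD7.BoxLe m (fun n i => ξ * θ ^ (n + ρ i) + c (n + ρ i)) N (E N)} := by
  classical
  -- the starting window
  obtain ⟨x₀, hx₀⟩ := hne
  obtain ⟨ρ, hρ, hball⟩ := Metric.isOpen_iff.1 hO x₀ hx₀
  obtain ⟨ℓ₀, hℓ₀⟩ : ∃ ℓ₀ : ℝ, ℓ₀ = min 1 (ρ / 2) := ⟨_, rfl⟩
  have hℓ₀pos : 0 < ℓ₀ := by rw [hℓ₀]; positivity
  have hℓ₀1 : ℓ₀ ≤ 1 := by rw [hℓ₀]; exact min_le_left _ _
  have hℓ₀ρ : ℓ₀ ≤ ρ / 2 := by rw [hℓ₀]; exact min_le_right _ _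
  have hsub : Icc x₀ (x₀ + ℓ₀) ⊆ O := by
    intro x hx
    refine hball ?_
    rw [Metric.mem_ball, Real.dist_eq, abs_of_nonneg (by linarith [hx.1])]
    linarith [hx.2]
  -- the phases
  obtain ⟨X, hX1, hX2, hX3⟩ := Pool.Agent.Helper78.LD8.exists_X hθ
  obtain ⟨a, hamono, ha, hN⟩ := ev_NR9 hθ hm
  have hF : ∀ d, Pm.Ok ⟨d, X, a d, θ, c⟩ := fun d => ⟨hX1, ha d, hθ, hX2, hX3⟩
  have hthr : ∀ d, ∃ t : ℕ, ∀ K ≥ t, (Pm.Big ⟨d, X, a d, θ, c⟩ K ∧ Pm.Z ⟨d, X, a d, θ, c⟩ * Pm.b ⟨d, X, a d, θ, c⟩ K * K ≤ 2 ^ K) ∧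
      Pm.NR ⟨d, X, a d, θ, c⟩ K ∧ Pm.cF ⟨d, X, a d, θ, c⟩ ≤ K ∧ d + 4 ≤ K ∧ Real.log K ^ (2 * (2 * a d + 2 * d + 5) + 6) ≤ E K := fun d =>
    eventually_atTop.1 ((Pool.Agent.Helper80.LD8.num_ev _).and ((hN X c d).and ((eventually_ge_atTop _).and ((eventually_ge_atTop _).and (hE _)))))
  choose thr hthr using hthr
  obtain ⟨K₀, hK₀⟩ : ∃ K₀, K₀ = max (thr 0) 1 := ⟨_, rfl⟩
  have hK₀1 : 1 ≤ K₀ := by rw [hK₀]; exact le_max_right _ _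
  have hK₀0 : thr 0 ≤ K₀ := by rw [hK₀]; exact le_max_left _ _
  obtain ⟨fm, hfm⟩ : ∃ fm, fm = fam thr K₀ := ⟨_, rfl⟩
  have hfmm : Monotone fm := by rw [hfm]; exact fam_mono thr K₀
  have hspec : ∀ σ, ∀ K ≥ K₀ + σ, _ := fun σ K hK => hthr (fm σ) K (by
    rw [hfm]
    exact (fam_spec hK₀0 σ).trans hK)
  obtain ⟨am, ham⟩ : ∃ am : ℕ → ℕ, am = fun σ => a (fm σ) := ⟨_, rfl⟩
  have R : Rq X θ c fm am K₀ ℓ₀ := by
    subst ham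
    exact ⟨fun σ => hF _, hℓ₀pos, hℓ₀1, fun σ => (hspec σ _ le_rfl).1.1, fun σ => (hspec σ _ le_rfl).1.2, fun σ => (hspec σ _ le_rfl).2.1,
      fun σ => (hspec σ _ le_rfl).2.2.1⟩
  have ham2 : ∀ σ, 2 ≤ am σ := fun σ => by rw [ham]; exact ha _
  have hdim := dim_homog (fun k => 2 ^ bt K₀ am (Nat.log 2 (k + 1))) (lw (bt K₀ am) ℓ₀)
    (fun k => (1 / 2 : ℝ) ^ (3 * ((fm (Nat.log 2 (k + 1)) + 4) * (K₀ + Nat.log 2 (k + 1))))) (GoodM X θ c fm am K₀ ℓ₀) x₀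
    (fun k => Nat.one_le_two_pow) (lw_pos hℓ₀pos 0) (fun k => by rw [lw_succ]; push_cast; rfl) (lw_tendsto hℓ₀pos (bt_pos R))
    (fun k => by positivity) (fun k => pow_le_one₀ (by norm_num) (by norm_num)) (fun σ h _ => absurd h (Nat.not_lt_zero _))
    (fun k a hg => by
      have := good_step R k a hg
      convert this using 3) hs hs1 (mass9 (K₀ := K₀) (e := fun σ => (fm σ + 4) * (K₀ + σ)) hℓ₀pos (fun σ => by
        rw [sq]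
        exact Nat.mul_le_mul_right _ (hspec σ _ le_rfl).2.2.2.1) (fun σ => by
        unfold bt
        exact Nat.pow_le_pow_right (K_pos R σ) (by have := ham2 σ; omega)) hs hs1)
  refine hdim.trans (dimH_mono ?_)
  rintro x ⟨hx0, hx⟩
  rw [lw_zero] at hx0
  refine ⟨hsub hx0, fun m ρ hρi => ?_⟩
  -- the largest shift
  obtain ⟨i₀, hi₀⟩ : ∃ i₀ : ℕ, ∀ i, ρ i ≤ i₀ := ⟨∑ i, ρ i, fun i => Finset.single_le_sum (f := ρ) (fun _ _ => Nat.zero_le _) (Finset.mem_univ i)⟩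
  obtain ⟨Ex, hEx⟩ : ∃ Ex : ℕ → ℕ, Ex = fun σ => 2 * am σ + 2 * fm σ + 5 := ⟨_, rfl⟩
  have hExm : Monotone Ex := by
    intro σ σ' h
    rw [hEx, ham]
    have h1 := hfmm h
    have h2 := hamono h1
    show 2 * a (fm σ) + 2 * fm σ + 5 ≤ 2 * a (fm σ') + 2 * fm σ' + 5
    omega
  have hθ0 : 0 < θ := by linarith
  obtain ⟨N₀, hN₀⟩ := asm9 (β := {p : (Fin m → ℝ) × (Fin m → ℝ) // ∀ i, 0 ≤ p.1 i ∧ p.1 i ≤ p.2 i ∧ p.2 i ≤ 1})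
    (fun b n => ∀ i : Fin m, b.1.1 i ≤ Int.fract (Uf θ c (n + ρ i) x) ∧ Int.fract (Uf θ c (n + ρ i) x) < b.1.2 i)
    (fun b => ∏ i, (b.1.2 i - b.1.1 i))
    (fun b => ⟨Finset.prod_nonneg fun i _ => by linarith [(b.2 i).2.1],
      Finset.prod_le_one (fun i _ => by linarith [(b.2 i).2.1]) fun i _ => by linarith [(b.2 i).1, (b.2 i).2.2]⟩)
    (ν := fun k => Tt θ 1 (lw (bt K₀ am) ℓ₀ k)) (X := X) (K₀ := K₀) (Ex := Ex)
    (fun k k' hk => Pool.Agent.Helper44.LD8.Tt_mono hθ (lw_pos hℓ₀pos _) (lw_anti hℓ₀pos hk) zero_le_one) hK₀1 hExm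
    (fun σ k h1 h2 => by
      have h3 := Pool.Agent.Helper44.LD8.Tt_block_le (R.ok σ) (Θ := 1) (lw_pos (β := bt K₀ am) hℓ₀pos k) zero_le_one (bt K₀ am σ)
      rw [← lw_phase (bt K₀ am) ℓ₀ h1 h2] at h3
      refine h3.trans (Nat.add_le_add_left ?_ _)
      have h4 : X ≤ K₀ + σ := by
        have h5 := (Pool.Agent.Helper80.LD8.num_Z (Fs X θ c fm am σ)).2.1
        have h6 := (Pool.Agent.Helper80.LD8.num_ZK (R.big σ)).1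
        have h7 : X + 1 ≤ K₀ + σ := le_trans h5 h6
        omega
      show X * (K₀ + σ) ^ (2 * am σ + 1) ≤ (K₀ + σ) ^ Ex σ
      calc X * (K₀ + σ) ^ (2 * am σ + 1) ≤ (K₀ + σ) * (K₀ + σ) ^ (2 * am σ + 1) := Nat.mul_le_mul_right _ h4
        _ = (K₀ + σ) ^ (2 * am σ + 2) := by ring
        _ ≤ (K₀ + σ) ^ Ex σ := Nat.pow_le_pow_right (K_pos R σ) (by rw [hEx]; show _ ≤ 2 * am σ + 2 * fm σ + 5; omega))
    (fun k => nu_ge (R.ok 0) hℓ₀pos hℓ₀1 (bt_pos R) k) (max i₀ (thr i₀)) (by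
      intro σ hσ k h1 h2 b
      have h3 : i₀ ≤ fm σ := by
        rw [hfm]
        exact le_fam ((le_max_left _ _).trans hσ) ((le_max_right _ _).trans hσ)
      have h4 := proj (u := fun n => Uf θ c n x) (sum_box R hx h1 h2) hρi (fun i => (hi₀ i).trans h3) b.1.1 b.1.2 b.2
      rw [hEx]
      convert h4)
  refine ⟨N₀, fun N hN' => ?_⟩
  obtain ⟨σ, h1, h2⟩ := hN₀ N hN'
  intro α γ hαγ
  have h3 := h2 ⟨(α, γ), hαγ⟩
  have h4 := (hspec σ N h1).2.2.2.2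
  have h5 : 2 * Ex σ + 6 = 2 * (2 * a (fm σ) + 2 * fm σ + 5) + 6 := by rw [hEx, ham]
  rw [h5] at h3
  refine le_trans (le_of_eq ?_) (h3.trans h4)
  congr!

/-- **nearly optimal joint discrepancy for all the shifts at once** -/
theorem main9 {θ : ℝ} (hθ : 1 < θ) (hm : SMeas θ) (E : ℕ → ℝ) (hE : ∀ C : ℕ, ∀ᶠ N : ℕ in atTop, Real.log N ^ C ≤ E N) (c : ℕ → ℝ)
    (O : Set ℝ) (hO : IsOpen O) (hne : O.Nonempty) :
    dimH {ξ | ξ ∈ O ∧ ∀ (s : ℕ) (ρ : Fin s → ℕ), Function.Injective ρ →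
      ∃ N₀ : ℕ, ∀ N ≥ N₀, Pool.Agent.Helper41.LD7.BoxLe s (fun n i => ξ * θ ^ (n + ρ i) + c (n + ρ i)) N (E N)} = 1 := by
  refine le_antisymm (dimH_le_one _) ?_
  have h1 : Tendsto (fun m : ℕ => ENNReal.ofReal (1 - 1 / ((m : ℝ) + 2))) atTop (𝓝 1) := by
    have h2 : Tendsto (fun m : ℕ => 1 - 1 / ((m : ℝ) + 2)) atTop (𝓝 (1 - 0)) := by
      refine Tendsto.sub tendsto_const_nhds ?_
      have h3 : Tendsto (fun m : ℕ => (m : ℝ) + 2) atTop atTop :=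
        tendsto_natCast_atTop_atTop.atTop_add tendsto_const_nhds
      have h5 := tendsto_inv_atTop_zero.comp h3
      refine h5.congr fun m => ?_
      rw [Function.comp_apply, one_div]
    rw [sub_zero] at h2
    have h4 := (ENNReal.continuous_ofReal.tendsto 1).comp h2
    rwa [ENNReal.ofReal_one] at h4
  refine le_of_tendsto h1 (Eventually.of_forall fun m => ?_)
  refine main9_ge hθ hm hE c hO hne ?_ ?_
  · have : (1 : ℝ) / ((m : ℝ) + 2) < 1 := by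
      rw [div_lt_one (by positivity)]
      have : (0 : ℝ) ≤ m := Nat.cast_nonneg m
      linarith
    linarith
  · have : (0 : ℝ) < 1 / ((m : ℝ) + 2) := by positivity
    linarith

end Pool.Agent.Helper78.LD9
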