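import Pool.Agent.Helper41.LD6.Defs

/-!
# Project LD8: windows of the multiples `x * θ ^ n + c n` of a geometric progression, definitions
-/

set_option autoImplicit false

namespace Pool.Agent.Helper78.LD8

open Set MeasureTheory
open Pool.Agent.Helper41.LD (av var haar)
open Pool.Agent.Helper41.LD4 (A M W Pot NB NBg)
open Pool.Agent.Helper41.LD6 (hr vr lv Qs vq lev dm Lv om GQ)

/-- `x * θ ^ n + c n` -/
noncomputable def Uf (θ : ℝ) (c : ℕ → ℝ) (n : ℕ) (x : ℝ) : ℝ := x * θ ^ n + c n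

/-- the time of the length `ℓ`, with the threshold `Θ` -/
noncomputable def Tt (θ Θ ℓ : ℝ) : ℕ := sInf {n : ℕ | Θ ≤ θ ^ n * ℓ}

/-- windows of `d + 1` consecutive terms of `x * θ ^ n + c n`; the resonances have at most `K ^ a` binary digits -/
structure Pm where
  (d X a : ℕ) (θ : ℝ) (c : ℕ → ℝ)

namespace Pm

structure Ok (F : Pm) : Prop where
  hX : 1 ≤ F.X
  ha : 2 ≤ F.a
  h1 : 1 < F.θ
  hθ2 : F.θ ≤ 2 ^ F.X
  hθX : 2 ≤ F.θ ^ F.X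

/-- the precision of the tests -/
def e (F : Pm) (K : ℕ) : ℕ := (F.d + 4) * K
/-- nonresonance: `2 ^ (-E)` -/
def E (F : Pm) (K : ℕ) : ℕ := K ^ F.a
/-- the number of the binary digits of one block -/
def b (F : Pm) (K : ℕ) : ℕ := K ^ (2 * F.a + 1)
/-- the number of the times in a product of two functionals -/
def t (F : Pm) : ℕ := 2 * (F.d + 1)
/-- the delay -/
def r (F : Pm) (K : ℕ) : ℕ := 5 * F.X * F.E K
/-- one constant for all -/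
def Z (F : Pm) : ℕ := 1000 * (F.X + 1) * (F.d + 4)

/-- threshold of the times -/
noncomputable def Th (F : Pm) (K : ℕ) : ℝ := 2 ^ (3 * F.E K)

/-- `K` is large -/
def Big (F : Pm) (K : ℕ) : Prop := F.Z ^ 4 ≤ K

/-- no resonances of the level `K` -/
def NR (F : Pm) (K : ℕ) : Prop :=
  ∀ I : Finset ℕ, I.card ≤ F.t → ∀ m : ℕ → ℤ, (∀ τ ∈ I, |m τ| ≤ 2 ^ (31 * F.e K)) → (∃ τ ∈ I, m τ ≠ 0) → ∀ v : ℝ, 0 ≤ v →
    (∀ τ ∈ I, v ≤ F.θ ^ τ) → (1 / 2) ^ F.E K * v ≤ |∑ τ ∈ I, (m τ : ℝ) * F.θ ^ τ|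

/-- the time of the start of the stage with the start length `ℓst` -/
noncomputable def n₀ (F : Pm) (K : ℕ) (ℓst : ℝ) : ℕ := Tt F.θ (F.Th K) ℓst

/-- the sequence of the stage -/
noncomputable def U (F : Pm) (K : ℕ) (ℓst : ℝ) (j : ℕ) (x : ℝ) : ℝ := Uf F.θ F.c (F.n₀ K ℓst + j) x
/-- the slopes -/
noncomputable def V (F : Pm) (K : ℕ) (ℓst : ℝ) (j : ℕ) : ℝ := F.θ ^ (F.n₀ K ℓst + j)

/-- the times -/
noncomputable def T (F : Pm) (K : ℕ) (ℓst ℓ : ℝ) : ℕ := Tt F.θ (F.Th K) ℓ - F.n₀ K ℓst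

/-- the functional `q` -/
noncomputable def G (F : Pm) (K : ℕ) (ℓst : ℝ) (q : Fin (F.d + 1) → ℕ) : ℕ → ℝ → ℝ := GQ (F.U K ℓst) (2 ^ (2 * K)) q

/-- the parameter of the potentials -/
noncomputable def lam (F : Pm) (K : ℕ) (q : Fin (F.d + 1) → ℕ) : ℝ := 1 / (16384 * ((F.X : ℝ) * (F.b K : ℕ))) * om K (lev q)

/-- a good window of the stage -/
def Good (F : Pm) (K : ℕ) (ℓst a ℓ : ℝ) : Prop :=
  NBg (F.U K ℓst) (F.T K ℓst ℓ + F.d) (F.r K) (2 ^ K) a ℓ ∧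
  ∑ q ∈ Qs F.d K, Pot (F.G K ℓst q) (F.T K ℓst ℓ) (F.r K) (F.lam K q) a ℓ ≤ 16 ^ F.e K

/-- the constant of a stage -/
def cF (F : Pm) : ℕ := 2 ^ 30 * 8 ^ (F.d + 1) * F.Z

end Pm

end Pool.Agent.Helper78.LD8
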