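import Pool.Agent.Helper78.LD8.Defs
import Pool.Agent.Helper95.KX.SMeas

set_option autoImplicit false

/-! # Project LD8, block NRL: short combinations of the powers are not small -/

namespace Pool.Agent.Helper78.LD8n

open Filter Topology Polynomial
open Pool.Agent.Helper95.KX (SMeas)
open Pool.Agent.Helper78.LD8

/-- no small values of the combinations with `n` terms -/
def Low (θ : ℝ) (D n a K : ℕ) : Prop :=
  ∀ I : Finset ℕ, I.card ≤ n → ∀ m : ℕ → ℤ, (∀ τ ∈ I, m τ ≠ 0 ∧ |m τ| ≤ 2 ^ (D * K)) → ∀ M ∈ I, (∀ τ ∈ I, τ ≤ M) →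
    (1 / 2) ^ (K ^ a) * θ ^ M ≤ |∑ τ ∈ I, (m τ : ℝ) * θ ^ τ|

/-- terms close to each other -/
theorem near {θ : ℝ} (hθ : 1 < θ) {n A : ℕ} {C : ℝ}
    (hS : ∀ (d H : ℕ) (P : ℤ[X]), P ≠ 0 → P.natDegree ≤ d → P.support.card ≤ n + 1 →
      (∀ i, |P.coeff i| ≤ H) → Real.exp (-(C * ((d : ℝ) + Real.log (1 + H)) ^ A)) ≤ |Polynomial.aeval θ P|)
    {I : Finset ℕ} (hI : I.card ≤ n + 1) {m : ℕ → ℤ} {H : ℕ} (hm : ∀ τ ∈ I, m τ ≠ 0 ∧ |m τ| ≤ H) {M μ G : ℕ} (hM : M ∈ I)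
    (hmax : ∀ τ ∈ I, τ ≤ M) (hmin : ∀ τ ∈ I, μ ≤ τ) (hG : M ≤ μ + G) :
    Real.exp (-(C * ((G : ℝ) + Real.log (1 + H)) ^ A)) * θ ^ μ ≤ |∑ τ ∈ I, (m τ : ℝ) * θ ^ τ| := by
  classical
  obtain ⟨P, hP⟩ : ∃ P : ℤ[X], P = ∑ τ ∈ I, Polynomial.C (m τ) * X ^ (τ - μ) := ⟨_, rfl⟩
  have hco : ∀ i, P.coeff i = if i + μ ∈ I then m (i + μ) else 0 := by
    intro i
    rw [hP, Polynomial.finsetSum_coeff]
    have h1 : ∀ τ ∈ I, (Polynomial.C (m τ) * X ^ (τ - μ)).coeff i = if i + μ = τ then m τ else 0 := by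
      intro τ hτ
      rw [Polynomial.coeff_C_mul, Polynomial.coeff_X_pow]
      have h2 := hmin τ hτ
      by_cases h3 : i = τ - μ
      · rw [if_pos h3, if_pos (by omega), mul_one]
      · rw [if_neg h3, if_neg (by omega), mul_zero]
    rw [Finset.sum_congr rfl h1, Finset.sum_ite_eq]
  have hP0 : P ≠ 0 := by
    intro h0
    have h1 := hco (M - μ)
    have h2 := hmin M hM
    rw [h0, Polynomial.coeff_zero, Nat.sub_add_cancel h2, if_pos hM] at h1
    exact (hm M hM).1 h1.symm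
  have hdeg : P.natDegree ≤ G := by
    rw [Polynomial.natDegree_le_iff_coeff_eq_zero]
    intro N hN
    rw [hco, if_neg]
    intro h1
    have := hmax _ h1
    omega
  have hcard : P.support.card ≤ n + 1 := by
    refine le_trans (Finset.card_le_card (t := I.image fun τ => τ - μ) ?_) (Finset.card_image_le.trans hI)
    intro i hi
    rw [Polynomial.mem_support_iff, hco] at hi
    rw [Finset.mem_image]
    by_cases h1 : i + μ ∈ I
    · exact ⟨i + μ, h1, by omega⟩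
    · rw [if_neg h1] at hi
      exact absurd rfl hi
  have hht : ∀ i, |P.coeff i| ≤ H := by
    intro i
    rw [hco]
    split_ifs with h1
    · exact (hm _ h1).2
    · rw [abs_zero]; positivity
  have h1 := hS G H P hP0 hdeg hcard hht
  have h2 : (∑ τ ∈ I, (m τ : ℝ) * θ ^ τ) = Polynomial.aeval θ P * θ ^ μ := by
    rw [hP, map_sum, Finset.sum_mul]
    refine Finset.sum_congr rfl fun τ hτ => ?_
    rw [map_mul, map_pow, Polynomial.aeval_X, Polynomial.aeval_C, mul_assoc, ← pow_add, Nat.sub_add_cancel (hmin τ hτ)]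
    rfl
  have hθμ : 0 < θ ^ μ := pow_pos (by linarith) _
  rw [h2, abs_mul, abs_of_pos hθμ]
  exact mul_le_mul_of_nonneg_right h1 hθμ.le

theorem low_step {θ : ℝ} (hθ : 1 < θ) (hs : SMeas θ) (D n a : ℕ) (h : ∀ᶠ K : ℕ in atTop, Low θ D n a K) :
    ∃ a', ∀ᶠ K : ℕ in atTop, Low θ D (n + 1) a' K := by
  obtain ⟨A, C, hC, hS⟩ := hs n
  obtain ⟨n₂, hn₂⟩ := pow_unbounded_of_one_lt (2 : ℝ) hθ
  obtain ⟨n₃, hn₃⟩ := exists_nat_gt ((C * 3 ^ A + Real.log θ) / Real.log 2)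
  have hl2 := Real.log_pos (by norm_num : (1 : ℝ) < 2)
  have hlθ := Real.log_pos hθ
  have hθ0 : 0 < θ := by linarith
  refine ⟨(a + 2) * (A + 1) + 1, ?_⟩
  filter_upwards [h, eventually_ge_atTop (D + 2 + n₂ * (D + 2) + n₃)] with K hL hK
  intro I hI m hm M hM hmax
  classical
  have hK2 : 2 ≤ K := by omega
  have hK1 : (1 : ℝ) ≤ K := by exact_mod_cast (by omega : 1 ≤ K)
  obtain ⟨G, hG⟩ : ∃ G, G = K ^ (a + 2) := ⟨_, rfl⟩
  have hGK : K * K ≤ G := by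
    rw [hG]
    calc K * K = K ^ 2 := by ring
      _ ≤ K ^ (a + 2) := Nat.pow_le_pow_right (by omega) (by omega)
  have hGa : K * (K ^ a) ≤ G := by
    rw [hG]
    calc K * K ^ a = K ^ (a + 1) := by ring
      _ ≤ K ^ (a + 2) := Nat.pow_le_pow_right (by omega) (by omega)
  have hDK : D * K + 1 ≤ G := by
    have h1 : (D + 2) * K ≤ K * K := Nat.mul_le_mul_right _ (by omega)
    have h2 : (D + 2) * K = D * K + 2 * K := by ring
    omega
  obtain ⟨μ, hμI, hmin⟩ : ∃ μ ∈ I, ∀ τ ∈ I, μ ≤ τ := ⟨I.min' ⟨M, hM⟩, I.min'_mem _, fun τ hτ => I.min'_le τ hτ⟩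
  have hθM : 0 < θ ^ M := pow_pos hθ0 _
  by_cases hgap : M ≤ μ + G
  · -- one cluster
    have h1 := near hθ hS hI (H := 2 ^ (D * K)) (fun τ hτ => by
      have := hm τ hτ
      exact ⟨this.1, by exact_mod_cast this.2⟩) hM hmax hmin hgap
    refine le_trans ?_ h1
    have h2 : Real.log (1 + ((2 ^ (D * K) : ℕ) : ℝ)) ≤ D * K + 1 := by
      have h3 : (1 : ℝ) + ((2 ^ (D * K) : ℕ) : ℝ) ≤ Real.exp (D * K + 1) := by
        have h4 : (2 : ℝ) ≤ Real.exp 1 := by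
          have := Real.add_one_le_exp (1 : ℝ)
          linarith
        have h5 : (1 : ℝ) ≤ 2 ^ (D * K) := one_le_pow₀ (by norm_num)
        have h6 : Real.exp ((D : ℝ) * K + 1) = Real.exp 1 ^ (D * K) * Real.exp 1 := by
          rw [Real.exp_add, ← Real.exp_nat_mul]
          push_cast
          rw [mul_one]
        rw [h6]
        push_cast
        have h7 : (2 : ℝ) ^ (D * K) ≤ Real.exp 1 ^ (D * K) := pow_le_pow_left₀ (by norm_num) h4 _
        nlinarith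
      calc _ ≤ Real.log (Real.exp (D * K + 1)) := Real.log_le_log (by positivity) h3
        _ = _ := Real.log_exp _
    have h3 : (G : ℝ) + Real.log (1 + ((2 ^ (D * K) : ℕ) : ℝ)) ≤ 3 * G := by
      have h4 : ((D * K + 1 : ℕ) : ℝ) ≤ (G : ℕ) := by exact_mod_cast hDK
      push_cast at h4
      have h5 : (0 : ℝ) ≤ G := Nat.cast_nonneg G
      linarith
    have h30 : 0 ≤ (G : ℝ) + Real.log (1 + ((2 ^ (D * K) : ℕ) : ℝ)) := by
      have : 0 ≤ Real.log (1 + ((2 ^ (D * K) : ℕ) : ℝ)) := Real.log_nonneg (by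
        have : (0 : ℝ) ≤ ((2 ^ (D * K) : ℕ) : ℝ) := Nat.cast_nonneg _
        linarith)
      positivity
    have h4 : ((G : ℝ) + Real.log (1 + ((2 ^ (D * K) : ℕ) : ℝ))) ^ A ≤ 3 ^ A * (G : ℝ) ^ A := by
      rw [← mul_pow]
      exact pow_le_pow_left₀ h30 h3 A
    -- the exponents
    have hG1 : (1 : ℝ) ≤ G := by
      have : 1 ≤ G := by nlinarith
      exact_mod_cast this
    have h5 : (G : ℝ) ^ A ≤ (G : ℝ) ^ (A + 1) := pow_le_pow_right₀ hG1 (by omega)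
    have h6 : (G : ℝ) ≤ (G : ℝ) ^ (A + 1) := le_self_pow₀ hG1 (by omega)
    have h7 : (C * 3 ^ A + Real.log θ) ≤ K * Real.log 2 := by
      have h8 : (n₃ : ℝ) ≤ K := by exact_mod_cast (by omega : n₃ ≤ K)
      have h9 := (div_lt_iff₀ hl2).1 hn₃
      nlinarith
    have h8 : C * ((G : ℝ) + Real.log (1 + ((2 ^ (D * K) : ℕ) : ℝ))) ^ A + G * Real.log θ ≤
        ((K ^ ((a + 2) * (A + 1) + 1) : ℕ) : ℝ) * Real.log 2 := by
      have h9 : ((K ^ ((a + 2) * (A + 1) + 1) : ℕ) : ℝ) = (G : ℝ) ^ (A + 1) * K := by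
        rw [hG]
        push_cast
        rw [← pow_mul, pow_succ]
      rw [h9]
      have h10 : C * ((G : ℝ) + Real.log (1 + ((2 ^ (D * K) : ℕ) : ℝ))) ^ A ≤ C * (3 ^ A * (G : ℝ) ^ (A + 1)) := by
        refine mul_le_mul_of_nonneg_left (h4.trans ?_) hC.le
        exact mul_le_mul_of_nonneg_left h5 (by positivity)
      have h11 : G * Real.log θ ≤ (G : ℝ) ^ (A + 1) * Real.log θ := mul_le_mul_of_nonneg_right h6 hlθ.le
      have h12 : (G : ℝ) ^ (A + 1) * (C * 3 ^ A + Real.log θ) ≤ (G : ℝ) ^ (A + 1) * (K * Real.log 2) :=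
        mul_le_mul_of_nonneg_left h7 (by positivity)
      nlinarith
    have h9 : (1 / 2 : ℝ) ^ (K ^ ((a + 2) * (A + 1) + 1)) = Real.exp (-(((K ^ ((a + 2) * (A + 1) + 1) : ℕ) : ℝ) * Real.log 2)) := by
      have : (1 / 2 : ℝ) = Real.exp (-Real.log 2) := by
        rw [Real.exp_neg, Real.exp_log (by norm_num), one_div]
      rw [this, ← Real.exp_nat_mul]
      congr 1
      ring
    have h10 : θ ^ M ≤ θ ^ μ * Real.exp (G * Real.log θ) := by
      have h11 : Real.exp (G * Real.log θ) = θ ^ G := by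
        rw [Real.exp_nat_mul, Real.exp_log hθ0]
      rw [h11, ← pow_add]
      exact pow_le_pow_right₀ hθ.le hgap
    rw [h9]
    calc Real.exp (-(((K ^ ((a + 2) * (A + 1) + 1) : ℕ) : ℝ) * Real.log 2)) * θ ^ M
        ≤ Real.exp (-(C * ((G : ℝ) + Real.log (1 + ((2 ^ (D * K) : ℕ) : ℝ))) ^ A + G * Real.log θ)) * (θ ^ μ * Real.exp (G * Real.log θ)) := by
          refine mul_le_mul (Real.exp_le_exp.2 (by linarith)) h10 hθM.le (Real.exp_pos _).le
      _ = Real.exp (-(C * ((G : ℝ) + Real.log (1 + ((2 ^ (D * K) : ℕ) : ℝ))) ^ A)) * θ ^ μ := by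
          have h11 : -(C * ((G : ℝ) + Real.log (1 + ((2 ^ (D * K) : ℕ) : ℝ))) ^ A + G * Real.log θ) =
            -(C * ((G : ℝ) + Real.log (1 + ((2 ^ (D * K) : ℕ) : ℝ))) ^ A) + -(G * Real.log θ) := by ring
          rw [h11, Real.exp_add, Real.exp_neg (G * Real.log θ)]
          have h12 := (Real.exp_pos (G * Real.log θ)).ne'
          field_simp
  · -- the least term is small
    push Not at hgap
    have hμM : M ≠ μ := by omega
    have h1 := hL (I.erase μ) (by rw [Finset.card_erase_of_mem hμI]; omega) m (fun τ hτ => hm τ (Finset.mem_of_mem_erase hτ)) M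
      (Finset.mem_erase.2 ⟨hμM, hM⟩) (fun τ hτ => hmax τ (Finset.mem_of_mem_erase hτ))
    have h2 : (∑ τ ∈ I, (m τ : ℝ) * θ ^ τ) = m μ * θ ^ μ + ∑ τ ∈ I.erase μ, (m τ : ℝ) * θ ^ τ := (Finset.add_sum_erase _ _ hμI).symm
    have h3 : |(m μ : ℝ) * θ ^ μ| ≤ (1 / 2) ^ (K ^ a + 1) * θ ^ M := by
      rw [abs_mul, abs_of_pos (pow_pos hθ0 μ)]
      have h4 : |(m μ : ℝ)| ≤ 2 ^ (D * K) := by
        have := (hm μ hμI).2
        have h5 : ((|m μ| : ℤ) : ℝ) ≤ ((2 ^ (D * K) : ℤ) : ℝ) := by exact_mod_cast this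
        rw [Int.cast_abs] at h5
        push_cast at h5
        exact h5
      have h5 : (2 : ℝ) ^ (D * K + K ^ a + 1) ≤ θ ^ G := by
        have h6 : n₂ * (D * K + K ^ a + 1) ≤ G := by
          rcases Nat.eq_zero_or_pos a with ha | ha
          · subst ha
            have h7 : n₂ * (D * K + K ^ 0 + 1) ≤ n₂ * ((D + 2) * K) := by
              refine Nat.mul_le_mul_left _ ?_
              have : (D + 2) * K = D * K + 2 * K := by ring
              rw [pow_zero]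
              omega
            have h8 : n₂ * ((D + 2) * K) ≤ K * K := by
              rw [← mul_assoc]
              exact Nat.mul_le_mul_right _ (by omega)
            omega
          · have h7 : K ≤ K ^ a := Nat.le_self_pow (by omega) _
            have h8 : D * K + K ^ a + 1 ≤ (D + 2) * K ^ a := by
              have h9 : D * K ≤ D * K ^ a := Nat.mul_le_mul_left _ h7
              have h10 : (D + 2) * K ^ a = D * K ^ a + 2 * K ^ a := by ring
              omega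
            calc n₂ * (D * K + K ^ a + 1) ≤ n₂ * ((D + 2) * K ^ a) := Nat.mul_le_mul_left _ h8
              _ = n₂ * (D + 2) * K ^ a := by ring
              _ ≤ K * K ^ a := Nat.mul_le_mul_right _ (by omega)
              _ ≤ G := hGa
        calc (2 : ℝ) ^ (D * K + K ^ a + 1) ≤ (θ ^ n₂) ^ (D * K + K ^ a + 1) := pow_le_pow_left₀ (by norm_num) hn₂.le _
          _ = θ ^ (n₂ * (D * K + K ^ a + 1)) := by rw [← pow_mul]
          _ ≤ θ ^ G := pow_le_pow_right₀ hθ.le h6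
      have h6 : θ ^ μ * θ ^ G ≤ θ ^ M := by
        rw [← pow_add]
        exact pow_le_pow_right₀ hθ.le hgap.le
      have hθμ : 0 < θ ^ μ := pow_pos hθ0 _
      calc |(m μ : ℝ)| * θ ^ μ ≤ 2 ^ (D * K) * θ ^ μ := mul_le_mul_of_nonneg_right h4 hθμ.le
        _ = (1 / 2) ^ (K ^ a + 1) * (2 ^ (D * K + K ^ a + 1) * θ ^ μ) := by
          have h7 : (2 : ℝ) ^ (D * K + K ^ a + 1) = 2 ^ (K ^ a + 1) * 2 ^ (D * K) := by
            rw [← pow_add]
            congr 1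
            ring
          have h8 : (1 / 2 : ℝ) ^ (K ^ a + 1) * 2 ^ (K ^ a + 1) = 1 := by
            rw [← mul_pow]
            norm_num
          rw [h7]
          calc (2 : ℝ) ^ (D * K) * θ ^ μ = 1 * (2 ^ (D * K) * θ ^ μ) := by ring
            _ = ((1 / 2 : ℝ) ^ (K ^ a + 1) * 2 ^ (K ^ a + 1)) * (2 ^ (D * K) * θ ^ μ) := by rw [h8]
            _ = _ := by ring
        _ ≤ (1 / 2) ^ (K ^ a + 1) * (θ ^ G * θ ^ μ) := by
          refine mul_le_mul_of_nonneg_left (mul_le_mul_of_nonneg_right h5 hθμ.le) (by positivity)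
        _ ≤ _ := mul_le_mul_of_nonneg_left (by linarith) (by positivity)
    have h4 : (1 / 2 : ℝ) ^ (K ^ ((a + 2) * (A + 1) + 1)) ≤ (1 / 2) ^ (K ^ a + 1) := by
      refine pow_le_pow_of_le_one (by norm_num) (by norm_num) ?_
      have h5 : K ^ (a + 1) ≤ K ^ ((a + 2) * (A + 1) + 1) := Nat.pow_le_pow_right (by omega) (by nlinarith)
      have h6 : K ^ a + 1 ≤ K ^ (a + 1) := by
        have h7 : 1 ≤ K ^ a := Nat.one_le_pow _ _ (by omega)
        have h8 : 2 * K ^ a ≤ K * K ^ a := Nat.mul_le_mul_right _ hK2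
        rw [pow_succ, mul_comm]
        omega
      omega
    have h5 : (1 / 2 : ℝ) ^ (K ^ a) = 2 * (1 / 2) ^ (K ^ a + 1) := by
      rw [pow_succ]
      ring
    rw [h2]
    have h6 : |∑ τ ∈ I.erase μ, (m τ : ℝ) * θ ^ τ| ≤ |m μ * θ ^ μ + ∑ τ ∈ I.erase μ, (m τ : ℝ) * θ ^ τ| + |(m μ : ℝ) * θ ^ μ| := by
      have h7 := abs_sub ((m μ : ℝ) * θ ^ μ + ∑ τ ∈ I.erase μ, (m τ : ℝ) * θ ^ τ) (m μ * θ ^ μ)
      rw [add_sub_cancel_left] at h7
      exact h7
    rw [h5] at h1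
    have h7 : (1 / 2 : ℝ) ^ (K ^ ((a + 2) * (A + 1) + 1)) * θ ^ M ≤ (1 / 2) ^ (K ^ a + 1) * θ ^ M := mul_le_mul_of_nonneg_right h4 hθM.le
    linarith

theorem low {θ : ℝ} (hθ : 1 < θ) (hs : SMeas θ) (D n : ℕ) : ∃ a, ∀ᶠ K : ℕ in atTop, Low θ D n a K := by
  induction n with
  | zero =>
    refine ⟨0, Eventually.of_forall fun K I hI m _ M hM _ => ?_⟩
    rw [Nat.le_zero, Finset.card_eq_zero] at hI
    rw [hI] at hM
    exact absurd hM (Finset.notMem_empty _)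
  | succ n ih =>
    obtain ⟨a, h⟩ := ih
    exact low_step hθ hs D n a h

/-- NRL -/
theorem ev_NR {θ : ℝ} (hθ : 1 < θ) (hm : SMeas θ) (d : ℕ) : ∃ a : ℕ, 2 ≤ a ∧ ∀ (X : ℕ) (c : ℕ → ℝ), ∀ᶠ K : ℕ in atTop, Pm.NR ⟨d, X, a, θ, c⟩ K := by
  classical
  obtain ⟨a, ha⟩ := low hθ hm (31 * (d + 4)) (2 * (d + 1))
  refine ⟨a + 2, by omega, fun X c => ?_⟩
  filter_upwards [ha, eventually_ge_atTop 1] with K hL hK
  intro I hI m hmI hm0 v hv0 hv
  obtain ⟨J, hJ⟩ : ∃ J, J = I.filter fun τ => m τ ≠ 0 := ⟨_, rfl⟩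
  have hJn : J.Nonempty := by
    obtain ⟨τ, h1, h2⟩ := hm0
    exact ⟨τ, by rw [hJ, Finset.mem_filter]; exact ⟨h1, h2⟩⟩
  have hJI : ∀ τ ∈ J, τ ∈ I ∧ m τ ≠ 0 := fun τ hτ => by rw [hJ, Finset.mem_filter] at hτ; exact hτ
  have h1 := hL J (by
    have h2 : J.card ≤ I.card := by rw [hJ]; exact Finset.card_filter_le _ _
    exact h2.trans hI) m (fun τ hτ => ⟨(hJI τ hτ).2, by
      have h3 := hmI τ (hJI τ hτ).1
      have h4 : 31 * Pm.e ⟨d, X, a + 2, θ, c⟩ K = 31 * (d + 4) * K := by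
        show 31 * ((d + 4) * K) = _
        ring
      rw [h4] at h3
      exact h3⟩) (J.max' hJn) (J.max'_mem hJn) (fun τ hτ => J.le_max' τ hτ)
  have h2 : (∑ τ ∈ I, (m τ : ℝ) * θ ^ τ) = ∑ τ ∈ J, (m τ : ℝ) * θ ^ τ := by
    rw [hJ]
    refine (Finset.sum_filter_of_ne fun τ _ h3 => ?_).symm
    intro h4
    rw [h4, Int.cast_zero, zero_mul] at h3
    exact h3 rfl
  show (1 / 2) ^ (K ^ (a + 2)) * v ≤ |∑ τ ∈ I, (m τ : ℝ) * θ ^ τ|
  rw [h2]
  refine le_trans (mul_le_mul ?_ (hv _ (hJI _ (J.max'_mem hJn)).1) hv0 (by positivity)) h1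
  exact pow_le_pow_of_le_one (by norm_num) (by norm_num) (Nat.pow_le_pow_right hK (by omega))

end Pool.Agent.Helper78.LD8n
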