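import Pool.Agent.Helper41.LD4.Main
import Pool.Agent.Helper41.LD7.Defs
import Pool.Agent.Helper31.LD6.AS
import Pool.Agent.Helper80.LD8.NUM8
import Pool.Agent.Helper78.LD8.NRL
import Pool.Agent.Helper44.LD8.TT8b
import Pool.Agent.Helper52.LD8.STP
import Pool.Agent.Helper89.LD8.Fin
import Pool.Agent.Helper85.LD8.Cls
import Pool.Agent.Helper64.LD8.Mass

/-!
# Project LD8: windows of the multiples of a geometric progression, the main theorem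
-/

set_option autoImplicit false

namespace Pool.Agent.Helper78.LD8

open Set MeasureTheory Filter Topology
open Pool.Agent.Helper41.LD (av var haar Kk Kk_mono Kk_succ Kk_ge Kk_tendsto)
open Pool.Agent.Helper41.LD2 (dimH_le_one)
open Pool.Agent.Helper41.LD3 (ll nu ll_pos ll_succ ll_anti ll_tendsto nu_mono nu_succ nu_ge)
open Pool.Agent.Helper41.LD4 (kp kp_zero kp_strict Kk_phase exists_phase phase_len ll_phase)
open Pool.Agent.Helper41.LD6 (Qs)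
open Pool.Agent.Helper31.LD6 (asm6)
open Pool.Agent.Helper80.LD8 (num_K num_Z num_ZK num_r num_ev)
open Pool.Agent.Helper78.LD8n (ev_NR)
open Pool.Agent.Helper44.LD8 (T_phase)
open Pool.Agent.Helper52.LD8 (stage_step8)
open Pool.Agent.Helper89.LD8 (stage_start8 stage_sums8)
open Pool.Agent.Helper85.LD8 (cls8)
open Pool.Agent.Helper64.LD8 (mass_bound8)
open Pool.Agent.Helper89.LD (dim_homog)
open Pool.Agent.Helper95.KX (SMeas)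

/-! ## The tree -/

/-- the requirements of all levels -/
structure Rq (F : Pm) (K₀ : ℕ) (ℓ₀ : ℝ) : Prop where
  ok : F.Ok
  pos : 0 < ℓ₀
  le : ℓ₀ ≤ 1
  big : ∀ σ, F.Big (K₀ + σ)
  big2 : ∀ σ, F.Z * F.b (K₀ + σ) * (K₀ + σ) ≤ 2 ^ (K₀ + σ)
  nr : ∀ σ, F.NR (K₀ + σ)

/-- a good window of level `k` -/
def GoodM (F : Pm) (K₀ : ℕ) (ℓ₀ : ℝ) (k : ℕ) (a : ℝ) : Prop :=
  ∀ σ, kp σ < k → k ≤ kp (σ + 1) → F.Good (K₀ + σ) (ll F.a K₀ ℓ₀ (kp σ)) a (ll F.a K₀ ℓ₀ k)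

variable {F : Pm} {K₀ : ℕ} {ℓ₀ : ℝ}

theorem good_at (R : Rq F K₀ ℓ₀) {k : ℕ} {a : ℝ} (h : GoodM F K₀ ℓ₀ k a) {σ : ℕ} (h1 : kp σ ≤ k) (h2 : k ≤ kp (σ + 1)) :
    F.Good (K₀ + σ) (ll F.a K₀ ℓ₀ (kp σ)) a (ll F.a K₀ ℓ₀ k) := by
  rcases eq_or_lt_of_le h1 with h3 | h3
  · rw [← h3]
    exact stage_start8 R.ok (R.big σ) (R.nr σ) (ll_pos R.pos K₀ _) a
  · exact h σ h3 h2

theorem ll_le_one (R : Rq F K₀ ℓ₀) (k : ℕ) : ll F.a K₀ ℓ₀ k ≤ 1 := by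
  have h2 := ll_anti (κ := F.a) R.pos K₀ (Nat.zero_le k)
  have h3 : ll F.a K₀ ℓ₀ 0 = ℓ₀ := by unfold ll; simp
  have h4 := R.le
  linarith

theorem T_le (R : Rq F K₀ ℓ₀) {σ k : ℕ} (h1 : kp σ ≤ k) (h2 : k ≤ kp (σ + 1)) :
    F.T (K₀ + σ) (ll F.a K₀ ℓ₀ (kp σ)) (ll F.a K₀ ℓ₀ k) ≤ 2 ^ (K₀ + σ) * (F.X * F.b (K₀ + σ)) :=
  T_phase R.ok R.pos K₀ rfl rfl h1 h2

theorem num_count (R : Rq F K₀ ℓ₀) {σ n : ℕ} (hn : n ≤ 2 ^ (K₀ + σ) * (F.X * F.b (K₀ + σ))) : n + F.r (K₀ + σ) ≤ 2 ^ (2 * (K₀ + σ)) := by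
  obtain ⟨K, hK⟩ : ∃ K, K = K₀ + σ := ⟨_, rfl⟩
  have hb := R.big σ
  have hb2 := R.big2 σ
  rw [← hK] at hn hb hb2 ⊢
  have h1 := (num_r R.ok hb).1
  have h2 := (num_Z F).2.1
  have h3 : 1 ≤ K := (by norm_num : 1 ≤ 1000000000000).trans (num_K hb)
  have hr : F.r K ≤ F.b K := by
    rcases Nat.eq_zero_or_pos (F.r K) with h0 | h0
    · rw [h0]; exact Nat.zero_le _
    · exact (Nat.le_self_pow two_ne_zero _).trans h1
  have h4 : (F.X + 1) * F.b K ≤ 2 ^ K := by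
    refine le_trans ?_ hb2
    calc (F.X + 1) * F.b K ≤ F.Z * F.b K := Nat.mul_le_mul_right _ h2
      _ ≤ F.Z * F.b K * K := Nat.le_mul_of_pos_right _ h3
  have h2K : 1 ≤ 2 ^ K := Nat.one_le_two_pow
  calc n + F.r K ≤ 2 ^ K * (F.X * F.b K) + 2 ^ K * F.b K :=
        Nat.add_le_add hn (hr.trans (Nat.le_mul_of_pos_left _ h2K))
    _ = 2 ^ K * ((F.X + 1) * F.b K) := by ring
    _ ≤ 2 ^ K * 2 ^ K := Nat.mul_le_mul_left _ h4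
    _ = 2 ^ (2 * K) := by rw [two_mul, pow_add]

/-- one block -/
theorem good_step (R : Rq F K₀ ℓ₀) (k : ℕ) (a : ℝ) (h : GoodM F K₀ ℓ₀ k a) :
    (1 / 2 : ℝ) ^ (3 * ((F.d + 4) * Kk K₀ k)) * ((2 ^ (Kk K₀ k ^ (2 * F.a + 1)) : ℕ) : ℝ) ≤
      (by classical exact (((Finset.range (2 ^ (Kk K₀ k ^ (2 * F.a + 1)))).filter fun b : ℕ =>
        GoodM F K₀ ℓ₀ (k + 1) (a + b * ll F.a K₀ ℓ₀ (k + 1))).card : ℝ)) := by
  classical
  obtain ⟨σ, hσ1, hσ2⟩ := exists_phase k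
  have hℓk := ll_pos (κ := F.a) R.pos K₀ k
  have h1 := good_at R h hσ1 hσ2.le
  have hT := T_le R (hσ1.trans (Nat.le_succ k)) (Nat.succ_le_of_lt hσ2)
  have e0 : ll F.a K₀ ℓ₀ (k + 1) = ll F.a K₀ ℓ₀ k / 2 ^ F.b (K₀ + σ) := ll_phase ℓ₀ hσ1 hσ2
  rw [e0] at hT
  have h2 := stage_step8 R.ok (R.big σ) (R.big2 σ) (R.nr σ) hℓk (ll_anti R.pos K₀ hσ1) (ll_le_one R _) (num_count R hT) h1
  rw [Kk_phase K₀ hσ1 hσ2]
  refine h2.trans ?_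
  have h3 : ((Finset.range (2 ^ F.b (K₀ + σ))).filter fun b : ℕ =>
      F.Good (K₀ + σ) (ll F.a K₀ ℓ₀ (kp σ)) (a + b * (ll F.a K₀ ℓ₀ k / (2 ^ F.b (K₀ + σ) : ℕ))) (ll F.a K₀ ℓ₀ k / (2 ^ F.b (K₀ + σ) : ℕ))) ⊆
      ((Finset.range (2 ^ ((K₀ + σ) ^ (2 * F.a + 1)))).filter fun b : ℕ => GoodM F K₀ ℓ₀ (k + 1) (a + b * ll F.a K₀ ℓ₀ (k + 1))) := by
    intro b hb
    rw [Finset.mem_filter] at hb ⊢
    refine ⟨hb.1, fun σ' e1 e2 => ?_⟩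
    have e3 : σ' = σ := by
      rcases lt_trichotomy σ' σ with e | e | e
      · have := kp_strict.monotone (show σ' + 1 ≤ σ by omega)
        omega
      · exact e
      · have := kp_strict.monotone (show σ + 1 ≤ σ' by omega)
        omega
    subst e3
    have e4 : ll F.a K₀ ℓ₀ (k + 1) = ll F.a K₀ ℓ₀ k / (2 ^ F.b (K₀ + σ') : ℕ) := by
      rw [e0]
      push_cast
      rfl
    rw [e4]
    exact hb.2
  have h4 := Finset.card_le_card h3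
  convert (Nat.cast_le (α := ℝ)).2 h4 using 2

/-- the discrepancy over one phase -/
theorem sum_box (R : Rq F K₀ ℓ₀) {x : ℝ} (hx : ∀ k, ∃ a, GoodM F K₀ ℓ₀ k a ∧ x ∈ Icc a (a + ll F.a K₀ ℓ₀ k))
    {σ k : ℕ} (h1 : kp σ ≤ k) (h2 : k ≤ kp (σ + 1)) (α γ : Fin (F.d + 1) → ℝ) (hαγ : ∀ i, 0 ≤ α i ∧ α i ≤ γ i ∧ γ i ≤ 1) :
    |(((Finset.Ico (nu F.a K₀ ℓ₀ F.θ (kp σ)) (nu F.a K₀ ℓ₀ F.θ k)).filter fun n : ℕ =>
        ∀ i : Fin (F.d + 1), α i ≤ Int.fract (Uf F.θ F.c (n + i) x) ∧ Int.fract (Uf F.θ F.c (n + i) x) < γ i).card : ℝ) -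
      ((nu F.a K₀ ℓ₀ F.θ k : ℝ) - nu F.a K₀ ℓ₀ F.θ (kp σ)) * ∏ i, (γ i - α i)| ≤
      (F.cF : ℕ) * ((K₀ + σ : ℕ) : ℝ) ^ (2 * F.a + 2 * F.d + 4) := by
  obtain ⟨a, hg, hxa⟩ := hx k
  have hgood := good_at R hg h1 h2
  have hT := T_le R h1 h2
  have hc := num_count R hT
  exact cls8 R.ok (R.big σ) (ll_pos (κ := F.a) R.pos K₀ k) (ll_anti (κ := F.a) R.pos K₀ h1) hT
    (fun q hq => stage_sums8 R.ok (R.big σ) (R.nr σ) (ll_pos (κ := F.a) R.pos K₀ k) ((Nat.le_add_right _ _).trans hc) hgood hxa hq) α γ hαγ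

/-! ## The dimension -/

/-- the points with small discrepancy of the windows -/
def Pts (F : Pm) (O : Set ℝ) : Set ℝ :=
  {ξ | ξ ∈ O ∧ ∃ N₀ : ℕ, ∀ N ≥ N₀, Pool.Agent.Helper41.LD6.BoxLe (F.d + 1) (fun n => Uf F.θ F.c n ξ) N (Real.log N ^ (2 * F.a + 2 * F.d + 6))}

theorem main8_ge (hF : F.Ok) (hN : ∀ᶠ K : ℕ in atTop, F.NR K) {O : Set ℝ} (hO : IsOpen O) (hne : O.Nonempty) {s : ℝ} (hs : 0 < s) (hs1 : s < 1) :
    ENNReal.ofReal s ≤ dimH (Pts F O) := by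
  classical
  -- the starting window
  obtain ⟨x₀, hx₀⟩ := hne
  obtain ⟨ρ, hρ, hball⟩ := Metric.isOpen_iff.1 hO x₀ hx₀
  obtain ⟨ℓ₀, hℓ₀⟩ : ∃ ℓ₀ : ℝ, ℓ₀ = min 1 (ρ / 2) := ⟨_, rfl⟩
  have hℓ₀pos : 0 < ℓ₀ := by rw [hℓ₀]; positivity
  have hℓ₀1 : ℓ₀ ≤ 1 := by rw [hℓ₀]; exact min_le_left _ _
  have hℓ₀ρ : ℓ₀ ≤ ρ / 2 := by rw [hℓ₀]; exact min_le_right _ _
  have hsub : Icc x₀ (x₀ + ℓ₀) ⊆ O := by
    intro x hx
    refine hball ?_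
    rw [Metric.mem_ball, Real.dist_eq, abs_of_nonneg (by linarith [hx.1])]
    linarith [hx.2]
  -- the level
  obtain ⟨K₁, hK₁⟩ := eventually_atTop.1 ((num_ev F).and (hN.and (eventually_ge_atTop (F.cF ^ 2))))
  obtain ⟨K₀, hK₀⟩ : ∃ K₀, K₀ = max K₁ 1 := ⟨_, rfl⟩
  have hK₀1 : 1 ≤ K₀ := by rw [hK₀]; exact le_max_right _ _
  have hK₀0 : ∀ σ, K₁ ≤ K₀ + σ := fun σ => by
    have : K₁ ≤ K₀ := by rw [hK₀]; exact le_max_left _ _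
    omega
  have R : Rq F K₀ ℓ₀ := ⟨hF, hℓ₀pos, hℓ₀1, fun σ => (hK₁ _ (hK₀0 σ)).1.1, fun σ => (hK₁ _ (hK₀0 σ)).1.2, fun σ => (hK₁ _ (hK₀0 σ)).2.1⟩
  have hll0 : ll F.a K₀ ℓ₀ 0 = ℓ₀ := by unfold ll; simp
  have ha1 : 1 ≤ F.a := (by norm_num : 1 ≤ 2).trans hF.ha
  have hdim := dim_homog (fun k => 2 ^ (Kk K₀ k ^ (2 * F.a + 1))) (ll F.a K₀ ℓ₀) (fun k => (1 / 2 : ℝ) ^ (3 * ((F.d + 4) * Kk K₀ k))) (GoodM F K₀ ℓ₀) x₀
    (fun k => Nat.one_le_two_pow) (ll_pos hℓ₀pos K₀ 0) (fun k => by rw [ll_succ]; push_cast; rfl) (ll_tendsto hℓ₀pos hK₀1)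
    (fun k => by positivity) (fun k => pow_le_one₀ (by norm_num) (by norm_num)) (fun σ h _ => absurd h (Nat.not_lt_zero _))
    (fun k a hg => by
      have := good_step R k a hg
      convert this using 3) hs hs1 (mass_bound8 ha1 hℓ₀pos K₀ (F.d + 4) hs hs1)
  refine hdim.trans (dimH_mono ?_)
  rintro x ⟨hx0, hx⟩
  rw [hll0] at hx0
  refine ⟨hsub hx0, ?_⟩
  obtain ⟨C₁, hC₁⟩ := nu_succ (κ := F.a) hℓ₀pos hF.h1 K₀
  obtain ⟨C₂, hC₂⟩ := nu_ge (κ := F.a) hℓ₀pos hℓ₀1 hF.h1 hK₀1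
  have hKp : ∀ σ, Kk K₀ (kp σ) = K₀ + σ := fun σ => Kk_phase K₀ le_rfl (kp_strict (Nat.lt_succ_self σ))
  obtain ⟨N₀, hN₀⟩ := asm6 (β := {p : (Fin (F.d + 1) → ℝ) × (Fin (F.d + 1) → ℝ) // ∀ i, 0 ≤ p.1 i ∧ p.1 i ≤ p.2 i ∧ p.2 i ≤ 1})
    (fun b n => ∀ i : Fin (F.d + 1), b.1.1 i ≤ Int.fract (Uf F.θ F.c (n + i) x) ∧ Int.fract (Uf F.θ F.c (n + i) x) < b.1.2 i)
    (fun b => ∏ i, (b.1.2 i - b.1.1 i))
    (fun b => ⟨Finset.prod_nonneg fun i _ => by linarith [(b.2 i).2.1],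
      Finset.prod_le_one (fun i _ => by linarith [(b.2 i).2.1]) fun i _ => by linarith [(b.2 i).1, (b.2 i).2.2]⟩)
    (κ := F.a) (e := 2 * F.a + 2 * F.d + 4) hK₀1 (nu_mono hℓ₀pos hF.h1 K₀) hC₁ hC₂ kp_strict (by omega)
    (fun σ => by rw [hKp]; exact Nat.le_add_left _ _)
    (G := fun _ => F.cF) (i := 0) (fun σ _ => by rw [hKp]; exact (hK₁ _ (hK₀0 σ)).2.2) (by
      intro σ _ k h1 h2 b
      rw [hKp]
      have h4 := sum_box R hx h1 h2 b.1.1 b.1.2 b.2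
      convert h4)
  refine ⟨N₀, fun N hN α γ hαγ => ?_⟩
  have h5 := hN₀ N hN ⟨(α, γ), hαγ⟩
  convert h5

theorem main8_one (hF : F.Ok) (hN : ∀ᶠ K : ℕ in atTop, F.NR K) {O : Set ℝ} (hO : IsOpen O) (hne : O.Nonempty) : dimH (Pts F O) = 1 := by
  refine le_antisymm (dimH_le_one _) ?_
  have h1 : Tendsto (fun m : ℕ => ENNReal.ofReal (1 - 1 / ((m : ℝ) + 2))) atTop (𝓝 1) := by
    have h2 : Tendsto (fun m : ℕ => 1 - 1 / ((m : ℝ) + 2)) atTop (𝓝 (1 - 0)) := by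
      refine Tendsto.sub tendsto_const_nhds ?_
      have h3 : Tendsto (fun m : ℕ => (m : ℝ) + 2) atTop atTop :=
        tendsto_natCast_atTop_atTop.atTop_add tendsto_const_nhds
      have h5 := tendsto_inv_atTop_zero.comp h3
      refine h5.congr fun m => ?_
      rw [Function.comp_apply, one_div]
    rw [sub_zero] at h2
    have h4 := (ENNReal.continuous_ofReal.tendsto 1).comp h2
    rwa [ENNReal.ofReal_one] at h4
  refine le_of_tendsto h1 (Eventually.of_forall fun m => ?_)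
  refine main8_ge hF hN hO hne ?_ ?_
  · have : (1 : ℝ) / ((m : ℝ) + 2) < 1 := by
      rw [div_lt_one (by positivity)]
      have : (0 : ℝ) ≤ m := Nat.cast_nonneg m
      linarith
    linarith
  · have : (0 : ℝ) < 1 / ((m : ℝ) + 2) := by positivity
    linarith

/-! ## Shifts -/

/-- from windows to shifts -/
theorem proj {d : ℕ} {u : ℕ → ℝ} {N : ℕ} {E : ℝ} (h : Pool.Agent.Helper41.LD6.BoxLe (d + 1) u N E) {s : ℕ} {ρ : Fin s → ℕ}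
    (hρ : Function.Injective ρ) (hd : ∀ i, ρ i ≤ d) : Pool.Agent.Helper41.LD7.BoxLe s (fun n i => u (n + ρ i)) N E := by
  classical
  intro α γ hαγ
  obtain ⟨f, hf⟩ : ∃ f : Fin s → Fin (d + 1), ∀ i, ((f i : Fin (d + 1)) : ℕ) = ρ i :=
    ⟨fun i => ⟨ρ i, Nat.lt_succ_of_le (hd i)⟩, fun i => rfl⟩
  have hfi : Function.Injective f := fun i j hij => hρ (by rw [← hf i, ← hf j, hij])
  obtain ⟨α', hα'⟩ : ∃ α' : Fin (d + 1) → ℝ, α' = Function.extend f α (fun _ => 0) := ⟨_, rfl⟩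
  obtain ⟨γ', hγ'⟩ : ∃ γ' : Fin (d + 1) → ℝ, γ' = Function.extend f γ (fun _ => 1) := ⟨_, rfl⟩
  have h1 : ∀ i, α' (f i) = α i := fun i => by rw [hα']; exact hfi.extend_apply _ _ _
  have h2 : ∀ i, γ' (f i) = γ i := fun i => by rw [hγ']; exact hfi.extend_apply _ _ _
  have h3 : ∀ j, (¬ ∃ i, f i = j) → α' j = 0 ∧ γ' j = 1 := fun j hj =>
    ⟨by rw [hα']; exact Function.extend_apply' _ _ _ hj, by rw [hγ']; exact Function.extend_apply' _ _ _ hj⟩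
  have h4 := h α' γ' fun j => by
    by_cases hj : ∃ i, f i = j
    · obtain ⟨i, rfl⟩ := hj
      rw [h1, h2]
      exact hαγ i
    · rw [(h3 j hj).1, (h3 j hj).2]
      norm_num
  have h5 : ∏ j, (γ' j - α' j) = ∏ i, (γ i - α i) := by
    have h6 : ∏ j ∈ Finset.univ.image f, (γ' j - α' j) = ∏ j, (γ' j - α' j) := by
      refine Finset.prod_subset (Finset.subset_univ _) fun j _ hj => ?_
      have h7 : ¬ ∃ i, f i = j := by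
        rintro ⟨i, rfl⟩
        exact hj (Finset.mem_image_of_mem _ (Finset.mem_univ _))
      rw [(h3 j h7).1, (h3 j h7).2]
      norm_num
    rw [← h6, Finset.prod_image fun i _ j _ hij => hfi hij]
    exact Finset.prod_congr rfl fun i _ => by rw [h1, h2]
  have h6 : ((Finset.range N).filter fun n : ℕ => ∀ j : Fin (d + 1), α' j ≤ Int.fract (u (n + j)) ∧ Int.fract (u (n + j)) < γ' j) =
      ((Finset.range N).filter fun n : ℕ => ∀ i : Fin s, α i ≤ Int.fract (u (n + ρ i)) ∧ Int.fract (u (n + ρ i)) < γ i) := by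
    refine Finset.filter_congr fun n _ => ⟨fun h7 i => ?_, fun h7 j => ?_⟩
    · have h8 := h7 (f i)
      rw [h1, h2, hf] at h8
      exact h8
    · by_cases hj : ∃ i, f i = j
      · obtain ⟨i, rfl⟩ := hj
        rw [h1, h2, hf]
        exact h7 i
      · rw [(h3 j hj).1, (h3 j hj).2]
        exact ⟨Int.fract_nonneg _, Int.fract_lt_one _⟩
  rw [h5] at h4
  have h7 := congrArg Finset.card h6
  have h8 : (((Finset.range N).filter fun n : ℕ => ∀ i : Fin s, α i ≤ Int.fract (u (n + ρ i)) ∧ Int.fract (u (n + ρ i)) < γ i).card : ℝ) =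
      (((Finset.range N).filter fun n : ℕ => ∀ j : Fin (d + 1), α' j ≤ Int.fract (u (n + j)) ∧ Int.fract (u (n + j)) < γ' j).card : ℝ) := by
    exact_mod_cast h7.symm
  convert h4 using 3

theorem exists_X {θ : ℝ} (hθ : 1 < θ) : ∃ X : ℕ, 1 ≤ X ∧ θ ≤ 2 ^ X ∧ 2 ≤ θ ^ X := by
  obtain ⟨n₁, h₁⟩ := pow_unbounded_of_one_lt θ (show (1 : ℝ) < 2 by norm_num)
  obtain ⟨n₂, h₂⟩ := pow_unbounded_of_one_lt (2 : ℝ) hθ
  refine ⟨n₁ + n₂ + 1, by omega, h₁.le.trans (pow_le_pow_right₀ (by norm_num) (by omega)), h₂.le.trans (pow_le_pow_right₀ hθ.le (by omega))⟩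

/-- **nearly optimal joint discrepancy of the shifts of `ξ θ ^ n + c n`, for all the shifts up to `d`** -/
theorem main8 {θ : ℝ} (hθ : 1 < θ) (hm : SMeas θ) (d : ℕ) : ∃ C : ℕ, ∀ (c : ℕ → ℝ) (O : Set ℝ), IsOpen O → O.Nonempty →
    dimH {ξ | ξ ∈ O ∧ ∃ N₀ : ℕ, ∀ N ≥ N₀, ∀ (s : ℕ) (ρ : Fin s → ℕ), Function.Injective ρ → (∀ i, ρ i ≤ d) →
      Pool.Agent.Helper41.LD7.BoxLe s (fun n i => ξ * θ ^ (n + ρ i) + c (n + ρ i)) N (Real.log N ^ C)} = 1 := by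
  obtain ⟨X, hX1, hX2, hX3⟩ := exists_X hθ
  obtain ⟨a, ha, hN⟩ := ev_NR hθ hm d
  refine ⟨2 * a + 2 * d + 6, fun c O hO hne => ?_⟩
  have hF : Pm.Ok ⟨d, X, a, θ, c⟩ := ⟨hX1, ha, hθ, hX2, hX3⟩
  refine le_antisymm (dimH_le_one _) ?_
  rw [← main8_one hF (hN X c) hO hne]
  refine dimH_mono ?_
  rintro ξ ⟨h1, N₀, h2⟩
  exact ⟨h1, N₀, fun N hN s ρ hρ hd => proj (h2 N hN) hρ hd⟩

end Pool.Agent.Helper78.LD8
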